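import Pool.Agent.H75.BC.G.Tot

/-!
The abstract main theorem, continued (helper75).
-/

set_option autoImplicit false
set_option linter.unusedSectionVars false
set_option linter.deprecated false

open MeasureTheory Filter Topology Complex
open scoped InnerProductSpace ENNReal

namespace Pool.Agent.H75.BC.G

open Pool.Agent.W662.CB Pool.Agent.H75.BC Pool.Agent.H75.BC.FB

noncomputable section

variable {H : Type} [NormedAddCommGroup H] [InnerProductSpace ℂ H] [CompleteSpace H]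
  {K : Type} [NormedAddCommGroup K] [InnerProductSpace ℂ K] [CompleteSpace K]
  {M N : VonNeumannAlgebra H} {ξ : H} {U : ℝ → H →L[ℂ] H} {J0 : H → H}
  {ρ : (H →L[ℂ] H) → (H →L[ℂ] H)} {κ : (H →L[ℂ] H) →⋆ₐ[ℂ] (K →L[ℂ] K)} {e S : ℝ → K →L[ℂ] K}
  {W : K →L[ℂ] K} {J : ℝ → H →L[ℂ] K} {E : ℝ → ℂ → K →L[ℂ] K} {A : VonNeumannAlgebra K}
  {Ex : (H →L[ℂ] H) → (H →L[ℂ] H)}

/-- the data of the conditional expectation -/
structure CE (M N : VonNeumannAlgebra H) (ξ : H) (Ex : (H →L[ℂ] H) → (H →L[ℂ] H)) : Prop where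
  cyc : IsCyclic M ξ
  exp : IsCondExp M N Ex
  inv : ∀ x : H →L[ℂ] H, x ∈ M → vst ξ (Ex x) = vst ξ x

/-- values of `RR` are in the relative bicentralizer -/
theorem ev_bic (hAC : S_AC) (hFl : S_Flow) (D : CoreD M N ξ U κ e S W J E A)
    (R : RAct M ξ U J0 ρ) (hC : CE M N ξ Ex) {X : K →L[ℂ] K} (hX : X ∈ RR M κ A)
    {x : H →L[ℂ] H} (hx : Ev M J X x) : x ∈ Bic N M ξ := by
  refine ⟨hx.1, fun a ha v => ?_⟩
  obtain ⟨ha1, ⟨L, hL⟩, ha3⟩ := ha
  refine flow_prop hAC hFl D R hC.cyc hC.exp hC.inv hX (c := 1) (p := 0) one_pos ?_ hx ?_ ha1 hL ?_ v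
  · rw [mul_zero, Real.log_one]
  · rw [neg_zero, D.fr.S_zero, one_mul, mul_one]
    exact hx
  · rw [one_pow]
    exact ha3

/-- the flow property with both strong limits; `λ = c²`, `p = log c / π` -/
theorem flow2 (hEv : S_Ev) (hAC : S_AC) (hFl : S_Flow) (D : CoreD M N ξ U κ e S W J E A)
    (R : RAct M ξ U J0 ρ) (hC : CE M N ξ Ex)
    {X : K →L[ℂ] K} (hX : X ∈ RR M κ A) {x y : H →L[ℂ] H} {c p : ℝ} (hc : 0 < c)
    (hp : Real.pi * p = Real.log c) (h1 : Ev M J X x) (h2 : Ev M J (S (-p) * X * S p) y)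
    {a : ℕ → H →L[ℂ] H} (ha : ∀ n, a n ∈ N) {L : ℝ} (hL : ∀ n, ‖a n‖ ≤ L)
    (ht : Tendsto (fun n => fnorm N ξ (c ^ 2) (a n)) atTop (𝓝 0)) (v : H) :
    Tendsto (fun n => (a n * x - y * a n) v) atTop (𝓝 0) ∧
      Tendsto (fun n => star (a n * x - y * a n) v) atTop (𝓝 0) := by
  have F := D.fr
  have hv := f_to_v hAC D.std.le D.std.unit hC.cyc D.std.sep D.std.modular R hC.exp hC.inv hc ha hL ht
  have hY : S (-p) * X * S p ∈ RR M κ A := by
    have h := RR_S D (-p) hX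
    rwa [neg_neg] at h
  constructor
  · -- `y a_n - a_n x → 0`
    have h3 : Ev M J (S p * (S (-p) * X * S p) * S (-p)) x := by
      rw [S_conj_inv F]
      exact h1
    have h4 := hFl H K M N ξ U J0 ρ κ e S W J E A D R _ hY y x c p hc hp h2 h3 a ha ⟨L, hL⟩ hv v
    have h5 := h4.neg
    rw [neg_zero] at h5
    refine h5.congr fun n => ?_
    simp only [ContinuousLinearMap.sub_apply, neg_sub]
  · -- `x* a_n* - a_n* y* → 0`
    have hc' : 0 < c⁻¹ := inv_pos.2 hc
    have hp' : Real.pi * (-p) = Real.log c⁻¹ := by rw [Real.log_inv, ← hp]; ring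
    have hXs := RR_star hX
    obtain ⟨x', hx', -⟩ := val hEv D hXs
    have e1 : x' = star x := ev_star F h1 hx'
    have hYs := RR_star hY
    obtain ⟨y', hy', -⟩ := val hEv D hYs
    have e2 : y' = star y := ev_star F h2 hy'
    have e3 : star (S (-p) * X * S p) = S (-p) * star X * S (-(-p)) := by
      rw [star_mul, star_mul, F.S_star, F.S_star, neg_neg, mul_assoc]
    rw [e3] at hy'
    have hv' : Tendsto (fun n => ‖star (a n) ξ - ((c⁻¹ : ℝ) : ℂ) • ρ (star (a n)) ξ‖) atTop (𝓝 0) := by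
      have h6 : ∀ n, ‖star (a n) ξ - ((c⁻¹ : ℝ) : ℂ) • ρ (star (a n)) ξ‖ =
          c⁻¹ * ‖a n ξ - (c : ℂ) • ρ (a n) ξ‖ := by
        intro n
        rw [RB.sym R]
        have h7 : ρ (a n) ξ - ((c⁻¹ : ℝ) : ℂ) • a n ξ =
            (-((c⁻¹ : ℝ) : ℂ)) • (a n ξ - (c : ℂ) • ρ (a n) ξ) := by
          rw [smul_sub, smul_smul, neg_smul, neg_mul, ← Complex.ofReal_mul, inv_mul_cancel₀ hc.ne']
          simp only [Complex.ofReal_one, neg_smul, one_smul]
          abel
        rw [h7, norm_smul, norm_neg, Complex.norm_real, Real.norm_eq_abs, abs_of_pos hc']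
      simp only [h6]
      have h8 := hv.const_mul c⁻¹
      rwa [mul_zero] at h8
    have h4 := hFl H K M N ξ U J0 ρ κ e S W J E A D R _ hXs x' y' c⁻¹ (-p) hc' hp' hx' hy'
      (fun n => star (a n)) (fun n => star_mem (ha n)) ⟨L, fun n => by rw [norm_star]; exact hL n⟩ hv' v
    refine h4.congr fun n => ?_
    rw [e1, e2, star_sub, star_mul, star_mul]

/-! ### The fixed point statement `E(x) = φ(x)` -/

theorem vst_norm_le (hξ : ‖ξ‖ = 1) (b : H →L[ℂ] H) : ‖vst ξ b‖ ≤ ‖b‖ := by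
  unfold vst
  refine (norm_inner_le_norm _ _).trans ?_
  rw [hξ, one_mul]
  refine (b.le_opNorm _).trans ?_
  rw [hξ, mul_one]

/-- the relative bicentralizer is mapped by `E` into the bicentralizer of `N` -/
theorem ce_bic (D : CoreD M N ξ U κ e S W J E A) (hC : CE M N ξ Ex) {x : H →L[ℂ] H}
    (hx : x ∈ Bic N M ξ) : Ex x ∈ Bic N N ξ := by
  have hle := D.std.le
  refine ⟨hC.exp.mem x hx.1, fun a ha v => ?_⟩
  obtain ⟨ha1, ⟨L, hL⟩, ha3⟩ := ha
  have h1 := hx.2 a ⟨ha1, ⟨L, hL⟩, ha3⟩ ξ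
  have h2 : ∀ n, Ex (x * a n - a n * x) = Ex x * a n - a n * Ex x := by
    intro n
    have m1 : x * a n ∈ M := mul_mem hx.1 (hle _ (ha1 n))
    have m2 : a n * x ∈ M := mul_mem (hle _ (ha1 n)) hx.1
    have e1 : x * a n - a n * x = x * a n + (-1 : ℂ) • (a n * x) := by
      rw [neg_smul, one_smul, sub_eq_add_neg]
    rw [e1, hC.exp.add _ _ m1 (M.toStarSubalgebra.smul_mem m2 _), hC.exp.smul _ _ m2,
      hC.exp.right _ _ (ha1 n) hx.1, hC.exp.left _ _ (ha1 n) hx.1, neg_smul, one_smul,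
      ← sub_eq_add_neg]
  have h3 : Tendsto (fun n => ‖(Ex x * a n - a n * Ex x) ξ‖) atTop (𝓝 0) := by
    have h4 := h1.norm
    rw [norm_zero] at h4
    refine squeeze_zero (fun n => norm_nonneg _) (fun n => ?_) h4
    rw [← h2 n]
    exact ce_ξ hle hC.exp hC.inv (sub_mem (mul_mem hx.1 (hle _ (ha1 n)))
      (mul_mem (hle _ (ha1 n)) hx.1))
  have h4 : ∀ n, ‖Ex x * a n - a n * Ex x‖ ≤ 2 * ‖Ex x‖ * |L| := by
    intro n
    have h5 : ‖a n‖ ≤ |L| := (hL n).trans (le_abs_self _)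
    have h6 : ‖Ex x * a n‖ ≤ ‖Ex x‖ * |L| :=
      (norm_mul_le _ _).trans (mul_le_mul_of_nonneg_left h5 (norm_nonneg _))
    have h7 : ‖a n * Ex x‖ ≤ |L| * ‖Ex x‖ :=
      (norm_mul_le _ _).trans (mul_le_mul_of_nonneg_right h5 (norm_nonneg _))
    refine (norm_sub_le _ _).trans ?_
    linarith
  refine Flow.tend_of_comm D.std.sep _ _ h4 (fun m hm => ?_) v
  have h5 : ∀ n, (Ex x * a n - a n * Ex x) (m ξ) = m ((Ex x * a n - a n * Ex x) ξ) := by
    intro n
    have h6 : Ex x * a n - a n * Ex x ∈ M := by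
      have hE := hle _ (hC.exp.mem x hx.1)
      exact sub_mem (mul_mem hE (hle _ (ha1 n))) (mul_mem (hle _ (ha1 n)) hE)
    have h7 := (VonNeumannAlgebra.mem_commutant_iff.1 hm) _ h6
    exact congrArg (fun T : H →L[ℂ] H => T ξ) h7
  simp only [h5]
  have h8 := (m.continuous.tendsto 0).comp (tendsto_zero_iff_norm_tendsto_zero.2 h3)
  rwa [map_zero] at h8

/-- restriction of the core data to `N ⊂ N` -/
theorem core_NN (D : CoreD M N ξ U κ e S W J E A) : CoreD N N ξ U κ e S W J E A where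
  std :=
    { le := fun _ h => h
      unit := D.std.unit
      sep := fun x hx h => D.std.sep x (D.std.le x hx) h
      modular :=
        { D.std.modular with
          mem := fun t x hx => D.std.inv t x hx
          kms := fun a b ha hb => D.std.modular.kms a b (D.std.le a ha) (D.std.le b hb) }
      inv := D.std.inv }
  fr := D.fr
  gen_W := D.gen_W
  gen_e := D.gen_e
  gen_min := D.gen_min
  fac := D.fac

/-- `E(x) = φ(x)` on the relative bicentralizer -/
theorem ce_scalar (hL : S_L) (hEx : S_Ex) (hEv : S_Ev) (hCT : S_CT)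
    (D : CoreD M N ξ U κ e S W J E A) (R : RAct M ξ U J0 ρ) (hC : CE M N ξ Ex) {x : H →L[ℂ] H}
    (hx : x ∈ Bic N M ξ) : Ex x = vst ξ x • (1 : H →L[ℂ] H) := by
  have R' := RB.restrict R D.std.le
  obtain ⟨X, hX, hX1, -⟩ := val_surj hL hEx hEv (core_NN D) R' (ce_bic D hC hx)
  obtain ⟨c, hc⟩ := hCT H K N ξ U J0 ρ κ e S W J E A (core_NN D) R' X hX
  have h1 : Ev N J (c • (1 : K →L[ℂ] K)) (c • (1 : H →L[ℂ] H)) := ev_smul c ev_one
  rw [hc] at hX1
  have h2 : Ex x = c • (1 : H →L[ℂ] H) := ev_unique D.fr hX1 h1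
  have h3 : vst ξ x = c := by
    rw [← hC.inv x hx.1, h2]
    unfold vst
    rw [ContinuousLinearMap.smul_apply, ContinuousLinearMap.one_apply, inner_smul_right,
      inner_self_eq_norm_sq_to_K, D.std.unit]
    simp
  rw [h3, h2]

/-- `κ(P) X κ(P) = φ(x) κ(P)` where `P` is the projection onto the closure of `N ξ` -/
theorem ce_core (hL : S_L) (hEx : S_Ex) (hEv : S_Ev) (hF1 : S_F1c) (hCT : S_CT) (hAC : S_AC)
    (hFl : S_Flow) (D : CoreD M N ξ U κ e S W J E A) (R : RAct M ξ U J0 ρ) (hC : CE M N ξ Ex)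
    {P : H →L[ℂ] H} (hP : ∀ x : H →L[ℂ] H, x ∈ M → P (x ξ) = Ex x ξ)
    {X : K →L[ℂ] K} (hX : X ∈ RR M κ A) {x : H →L[ℂ] H} (hx : Ev M J X x) :
    κ P * X * κ P = vst ξ x • κ P := by
  have F := D.fr
  have hle := D.std.le
  obtain ⟨xp, g1, -, g3, -⟩ := hEv H K M N ξ U κ e S W J E A D X hX
  -- the values are in the relative bicentralizer
  have hb : ∀ p, xp p ∈ Bic N M ξ := fun p => by
    have h1 := RR_S D (-p) hX
    rw [neg_neg] at h1
    exact ev_bic hAC hFl D R hC h1 (g1 p)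
  -- the values of the state are constant
  have hst : ∀ p, vst ξ (xp p) = ⟪J 1 ξ, X (J 1 ξ)⟫_ℂ := by
    intro p
    have h1 := ev_slice F (g1 p) ξ
    have h2 : Tendsto (fun r : ℝ => ⟪ξ, ContinuousLinearMap.adjoint (J r)
        ((S (-p) * X * S p) (J r ξ))⟫_ℂ) (𝓝[>] 0) (𝓝 (vst ξ (xp p))) := tendsto_const_nhds.inner h1
    refine tendsto_nhds_unique h2 (tendsto_const_nhds.congr' ?_)
    filter_upwards [self_mem_nhdsWithin] with r hr
    have hr' : (0 : ℝ) < r := hr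
    have h3 := hF1 H K M N ξ U κ e S W J E A D X hX p r hr'
    have h4 : ∀ a b : K, ⟪S p a, b⟫_ℂ = ⟪a, S (-p) b⟫_ℂ := fun a b => by
      rw [← F.S_star, ContinuousLinearMap.star_eq_adjoint, ContinuousLinearMap.adjoint_inner_right]
    rw [← h3, ContinuousLinearMap.adjoint_inner_right, h4]
    rfl
  have hx0 : vst ξ x = ⟪J 1 ξ, X (J 1 ξ)⟫_ℂ := by
    have h1 := g1 0
    rw [sj_conj F] at h1
    rw [ev_unique F hx h1, hst]
  -- `P x_p P = φ(x) P`
  have hPP : ∀ (p : ℝ) (v : H), P (xp p (P v)) = vst ξ x • P v := by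
    intro p
    have hcl : ∀ v : H, v ∈ closure {v : H | ∃ x : H →L[ℂ] H, x ∈ M ∧ x ξ = v} →
        P (xp p (P v)) = vst ξ x • P v := by
      intro v hv
      refine closure_minimal (t := {v : H | P (xp p (P v)) = vst ξ x • P v}) ?_ ?_ hv
      · rintro _ ⟨m, hm, rfl⟩
        have h1 : Ex m ∈ N := hC.exp.mem m hm
        have h2 : Ex (xp p * Ex m) = (vst ξ x) • Ex m := by
          rw [hC.exp.right _ _ h1 (hb p).1, ce_scalar hL hEx hEv hCT D R hC (hb p), hst p, ← hx0,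
            smul_mul_assoc, one_mul]
        show P (xp p (P (m ξ))) = vst ξ x • P (m ξ)
        rw [hP m hm]
        have h3 := hP (xp p * Ex m) (mul_mem (hb p).1 (hle _ h1))
        have h4 : P (xp p (Ex m ξ)) = Ex (xp p * Ex m) ξ := h3
        rw [h4, h2]
        rfl
      · exact isClosed_eq (P.continuous.comp ((xp p).continuous.comp P.continuous))
          ((P.continuous).const_smul _)
    intro v
    exact hcl v (hC.cyc v)
  -- uniform bound of the values
  have hbd : ∀ p, ‖xp p‖ ≤ ‖X‖ := by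
    intro p
    refine ContinuousLinearMap.opNorm_le_bound _ (norm_nonneg _) fun v => ?_
    have h1 := (ev_slice F (g1 p) v).norm
    refine le_of_tendsto h1 ?_
    filter_upwards [self_mem_nhdsWithin] with r hr
    have hr' : (0 : ℝ) < r := hr
    refine (Ja_norm F hr' _).trans ?_
    show ‖S (-p) (X (S p (J r v)))‖ ≤ _
    rw [S_norm F]
    refine (X.le_opNorm _).trans ?_
    rw [S_norm F, J_norm F hr']
  -- uniform approximation for all vectors
  have huni : ∀ (v : H) (ε : ℝ), 0 < ε → ∃ r0 : ℝ, 0 < r0 ∧ ∀ p r : ℝ, 0 < r → r ≤ r0 →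
      ‖X (S p (J r v)) - S p (J r (xp p v))‖ ≤ ε := by
    intro v ε hε
    obtain ⟨w, hw, hw1⟩ := Metric.mem_closure_iff.1 (Flow.comm_cyc D.std.sep v)
      (ε / (4 * (‖X‖ + 1))) (by positivity)
    obtain ⟨m, hm, rfl⟩ := hw
    obtain ⟨r0, hr0, h1⟩ := g3 (ε / (2 * (‖m‖ + 1))) (by positivity)
    refine ⟨r0, hr0, fun p r hr hrr => ?_⟩
    have h2 := (h1 p r hr hrr).1
    have h3 : X (S p (J r (m ξ))) - S p (J r (xp p (m ξ))) =
        κ m (X (S p (J r ξ)) - S p (J r (xp p ξ))) := by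
      have e1 : X (κ m (S p (J r ξ))) = κ m (X (S p (J r ξ))) := ap (hX.1 m hm) _
      have e2 : κ m (S p (J r ξ)) = S p (κ m (J r ξ)) := ap (F.κ_S m p) _
      have e3 : κ m (S p (J r (xp p ξ))) = S p (κ m (J r (xp p ξ))) := ap (F.κ_S m p) _
      have e4 : xp p (m ξ) = m (xp p ξ) :=
        congrArg (fun T : H →L[ℂ] H => T ξ)
          ((VonNeumannAlgebra.mem_commutant_iff.1 hm) _ (hb p).1)
      rw [map_sub, ← e1, e2, F.κ_J _ _ _ hr, e3, F.κ_J _ _ _ hr, e4]
    have h4 : ‖X (S p (J r (m ξ))) - S p (J r (xp p (m ξ)))‖ ≤ ε / 2 := by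
      rw [h3]
      refine ((κ m).le_opNorm _).trans ?_
      have h5 : ‖κ m‖ ≤ ‖m‖ + 1 := (Flow.κ_norm_le κ m).trans (by linarith)
      calc ‖κ m‖ * ‖X (S p (J r ξ)) - S p (J r (xp p ξ))‖ ≤ (‖m‖ + 1) * (ε / (2 * (‖m‖ + 1))) :=
            mul_le_mul h5 h2 (norm_nonneg _) (by positivity)
        _ = ε / 2 := by field_simp
    have h6 : ‖v - m ξ‖ ≤ ε / (4 * (‖X‖ + 1)) := by rw [← dist_eq_norm]; exact hw1.le
    have h7 : X (S p (J r v)) - S p (J r (xp p v)) =
        (X (S p (J r (v - m ξ))) - S p (J r (xp p (v - m ξ)))) +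
        (X (S p (J r (m ξ))) - S p (J r (xp p (m ξ)))) := by
      simp only [map_sub]; abel
    have h8 : ‖X (S p (J r (v - m ξ)))‖ ≤ (‖X‖ + 1) * (ε / (4 * (‖X‖ + 1))) := by
      refine (X.le_opNorm _).trans ?_
      rw [S_norm F, J_norm F hr]
      exact mul_le_mul (by linarith) h6 (norm_nonneg _) (by positivity)
    have h9 : ‖S p (J r (xp p (v - m ξ)))‖ ≤ (‖X‖ + 1) * (ε / (4 * (‖X‖ + 1))) := by
      rw [S_norm F, J_norm F hr]
      refine ((xp p).le_opNorm _).trans ?_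
      exact mul_le_mul ((hbd p).trans (by linarith)) h6 (norm_nonneg _) (by positivity)
    have h10 : (‖X‖ + 1) * (ε / (4 * (‖X‖ + 1))) = ε / 4 := by field_simp
    rw [h10] at h8 h9
    rw [h7]
    refine (norm_add_le _ _).trans ?_
    have h11 := norm_sub_le (X (S p (J r (v - m ξ)))) (S p (J r (xp p (v - m ξ))))
    linarith
  -- conclusion
  have hcom : ∀ t : ℝ, (κ P * X * κ P - vst ξ x • κ P) * e t =
      e t * (κ P * X * κ P - vst ξ x • κ P) := by
    intro t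
    have h1 : X * e t = e t * X := hX.2 _ (D.gen_e t)
    have h2 : κ P * e t = e t * κ P := F.κ_e P t
    calc (κ P * X * κ P - vst ξ x • κ P) * e t
        = κ P * X * (κ P * e t) - vst ξ x • (κ P * e t) := by
          rw [sub_mul, smul_mul_assoc, mul_assoc (κ P * X)]
      _ = κ P * (X * e t) * κ P - vst ξ x • (e t * κ P) := by rw [h2]; simp only [mul_assoc]
      _ = (κ P * e t) * X * κ P - vst ξ x • (e t * κ P) := by rw [h1]; simp only [mul_assoc]
      _ = _ := by rw [h2, mul_sub, mul_smul_comm]; simp only [mul_assoc]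
  have hz : κ P * X * κ P - vst ξ x • κ P = 0 := by
    refine zero_of_boxes F hcom fun p r v hr => ?_
    refine zero_of_small F hcom v (fun ε hε => ?_) hr p
    obtain ⟨r0, hr0, h1⟩ := huni (P v) (ε / (‖P‖ + 1)) (by positivity)
    refine ⟨r0, hr0, fun q s hs hss => ?_⟩
    have h2 := h1 q s hs hss
    have e1 : (κ P * X * κ P - vst ξ x • κ P) (S q (J s v)) =
        κ P (X (S q (J s (P v))) - S q (J s (xp q (P v)))) := by
      have e2 : κ P (S q (J s v)) = S q (J s (P v)) := by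
        have e3 : κ P (S q (J s v)) = S q (κ P (J s v)) := ap (F.κ_S P q) _
        rw [e3, F.κ_J _ _ _ hs]
      have e4 : κ P (S q (J s (xp q (P v)))) = S q (J s (P (xp q (P v)))) := by
        have e3 : κ P (S q (J s (xp q (P v)))) = S q (κ P (J s (xp q (P v)))) := ap (F.κ_S P q) _
        rw [e3, F.κ_J _ _ _ hs]
      rw [map_sub, e4, hPP q v, map_smul, map_smul]
      show κ P (X (κ P (S q (J s v)))) - vst ξ x • κ P (S q (J s v)) = _
      rw [e2]
    rw [e1]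
    refine ((κ P).le_opNorm _).trans ?_
    have h5 : ‖κ P‖ ≤ ‖P‖ + 1 := (Flow.κ_norm_le κ P).trans (by linarith)
    calc ‖κ P‖ * ‖X (S q (J s (P v))) - S q (J s (xp q (P v)))‖ ≤ (‖P‖ + 1) * (ε / (‖P‖ + 1)) :=
          mul_le_mul h5 h2 (norm_nonneg _) (by positivity)
      _ = ε := by field_simp
  exact sub_eq_zero.1 hz

end

end Pool.Agent.H75.BC.G
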