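import Pool.Agent.H75.BC.G.Iso
import Pool.Agent.H75.BC.T.AC
import Pool.Agent.H75.BC.T.An
import Pool.Agent.H75.BC.T.Apx
import Pool.Agent.H75.BC.T.Bur
import Pool.Agent.H75.BC.T.CT2
import Pool.Agent.H75.BC.T.CTa
import Pool.Agent.H75.BC.T.Col
import Pool.Agent.H75.BC.T.Col0
import Pool.Agent.H75.BC.T.Cor
import Pool.Agent.H75.BC.T.Dn
import Pool.Agent.H75.BC.T.Ev
import Pool.Agent.H75.BC.T.Ex9
import Pool.Agent.H75.BC.T.F1c
import Pool.Agent.H75.BC.T.FR4a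
import Pool.Agent.H75.BC.T.FR4b
import Pool.Agent.H75.BC.T.Fin
import Pool.Agent.H75.BC.T.Flow
import Pool.Agent.H75.BC.T.Fr
import Pool.Agent.H75.BC.T.FrA
import Pool.Agent.H75.BC.T.FrB
import Pool.Agent.H75.BC.T.FrW
import Pool.Agent.H75.BC.T.FrX
import Pool.Agent.H75.BC.T.Jc
import Pool.Agent.H75.BC.T.Lip
import Pool.Agent.H75.BC.T.Poi
import Pool.Agent.H75.BC.T.Sl
import Pool.Agent.H75.BC.T.Un
import Pool.Agent.H75.BC.T.Vc
import Pool.Agent.H75.L.W883.CB.A8a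
import Pool.Agent.H75.L.W766.CB.A8b
import Pool.Agent.H75.L.W797.CB.A8c
import Pool.Agent.H75.L.W315.CB.A8

/-!
All the pieces (helper75).
-/

set_option autoImplicit false

open MeasureTheory Filter Topology Complex
open scoped InnerProductSpace ENNReal

namespace Pool.Agent.H75.BC.All

open Pool.Agent.W662.CB Pool.Agent.H75.BC

theorem hA1 : S_A1 := Pool.Agent.W557.CB.a1
theorem hA2 : S_A2 := Pool.Agent.W303.CB.a2 hA1 Pool.Agent.W303.CB.a2a
theorem hApx : S_Apx := Pool.Agent.H75.BC.pApx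
theorem hJ : S_J := Pool.Agent.H75.BC.pJ
theorem hL : S_L := Lip.lip
theorem hPoi : S_Poi := s_Poi
theorem hPer : S_Per := s_Per
theorem hAn : S_An := s_An hA2 hApx hPoi
theorem hUn : S_Un := Un.un Bur.bur'
theorem hDn : S_Dn := Dn.dn
theorem hAC : S_AC := AC.ac hUn hDn
theorem hSl : S_Sl := s_Sl
theorem hV : S_V := pV
theorem hCol : S_Col := Col.col (Col0.col0 hSl hV)
theorem hFin : S_Fin := Fin.fin1
theorem hFin2 : S_Fin2 := Fin.fin2
theorem hCor : S_Cor := Cor.cor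
theorem hEx : S_Ex := Ex.ex_of hFin hFin2 hSl hCol hCor
theorem hF1 : S_F1c := F1c.f1c
theorem hEv : S_Ev := Ev.pEv hF1
theorem hInj : S_Inj := Ev.pInj hF1
theorem hFl : S_Flow := s_Flow hAn
theorem hCTa : S_CTa := CTa.pCTa hF1 hEv
theorem hCT : S_CT := T.CT2.main hCTa hPer hEv
theorem hFr : S_Fr := Fr.fr FrA.frA FrB.frB T.FR4b.main T.FR4a.main FrX.frX FrW.frW

/-- Takesaki's theorem -/
theorem hA8 : S_A8 := Pool.Agent.W315.CB.a8 Pool.Agent.W883.CB.a8a Pool.Agent.W766.CB.a8b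
  (Pool.Agent.W797.CB.a8c hA2)

end Pool.Agent.H75.BC.All
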