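import Pool.Agent.H75.BC.G.All

/-!
The concrete core data on `L²(ℝ; H)` (helper75).
-/

set_option autoImplicit false
set_option linter.unusedSectionVars false
set_option linter.deprecated false

open MeasureTheory Filter Topology Complex
open scoped InnerProductSpace ENNReal

namespace Pool.Agent.H75.BC.G

open Pool.Agent.W662.CB Pool.Agent.H75.BC Pool.Agent.H75.BC.FB

noncomputable section

variable {H : Type} [NormedAddCommGroup H] [InnerProductSpace ℂ H] [CompleteSpace H]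
  {M N : VonNeumannAlgebra H} {ξ : H} {U : ℝ → H →L[ℂ] H}

theorem lr_ext {T T' : LR H →L[ℂ] LR H} {g : LR H → ℝ → H}
    (h : ∀ f : LR H, (T f : ℝ → H) =ᵐ[volume] g f) (h' : ∀ f : LR H, (T' f : ℝ → H) =ᵐ[volume] g f) :
    T = T' := by
  ext1 f
  exact Lp.ext ((h f).trans (h' f).symm)

/-- The concrete core data. -/
theorem core_data (hs : Std M N ξ U) (hfac : IsFac (core N U)) :
    ∃ (κ : (H →L[ℂ] H) →⋆ₐ[ℂ] (LR H →L[ℂ] LR H)) (e S : ℝ → LR H →L[ℂ] LR H)
      (W : LR H →L[ℂ] LR H) (J : ℝ → H →L[ℂ] LR H) (E : ℝ → ℂ → LR H →L[ℂ] LR H),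
      CoreD M N ξ U κ e S W J E (core N U) ∧ (∀ y, IsConst y (κ y)) ∧ (∀ t, IsShift t (e (-t))) ∧
      (∀ p : ℝ, IsMulOp (fun s : ℝ => Complex.exp (2 * Real.pi * I * p * s)) (S p)) ∧
      ∀ (y : H →L[ℂ] H) (f : LR H), (W * κ y * star W) f =ᵐ[volume] fun s => sgm U (-s) y (f s) := by
  obtain ⟨κ, e, S, W, J, E, F, h1, h2, h3, h4⟩ := All.hFr H M ξ U hs.modular
  have hgenW : ∀ y : H →L[ℂ] H, y ∈ N → W * κ y * star W ∈ coreGen N U := by
    intro y hy
    exact Or.inl ⟨y, hy, fun f => h4 y f⟩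
  have hgene : ∀ t : ℝ, e t ∈ coreGen N U := by
    intro t
    refine Or.inr ⟨-t, fun f => ?_⟩
    have h5 := h2 (-t) f
    rw [neg_neg] at h5
    exact h5
  have hsub : ∀ T : LR H →L[ℂ] LR H, T ∈ coreGen N U → T ∈ core N U := by
    intro T hT
    refine (mem_vnGen_iff _ _).2 fun R hR => (hR T hT).1
  refine ⟨κ, e, S, W, J, E, ?_, h1, h2, h3, h4⟩
  refine ⟨hs, F, fun y hy => hsub _ (hgenW y hy), fun t => hsub _ (hgene t), ?_, hfac⟩
  intro Z hZ T hT1 hT2
  refine (mem_vnGen_iff _ _).1 hZ T fun B hB => ?_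
  rcases hB with ⟨y, hy, hB⟩ | ⟨t, hB⟩
  · have e1 : B = W * κ y * star W := lr_ext hB fun f => h4 y f
    have e2 : star B = W * κ (star y) * star W := by
      rw [e1, star_mul, star_mul, star_star, map_star, mul_assoc]
    rw [e2, e1]
    exact ⟨hT1 y hy, hT1 _ (star_mem hy)⟩
  · have e1 : B = e (-t) := lr_ext hB fun f => h2 t f
    have e2 : star B = e t := by rw [e1, F.e_star, neg_neg]
    rw [e2, e1]
    exact ⟨hT2 _, hT2 _⟩

end

end Pool.Agent.H75.BC.G
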