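import Pool.Agent.H75.BC.FB
import Pool.Agent.H75.BC.Stmts4

/-!
Evaluation at a point: elementary facts (helper75).
-/

set_option autoImplicit false
set_option linter.unusedSectionVars false
set_option linter.deprecated false

open MeasureTheory Filter Topology Complex
open scoped InnerProductSpace ENNReal

namespace Pool.Agent.H75.BC.G

open Pool.Agent.W662.CB Pool.Agent.H75.BC Pool.Agent.H75.BC.FB

noncomputable section

variable {H : Type} [NormedAddCommGroup H] [InnerProductSpace ℂ H] [CompleteSpace H]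
  {K : Type} [NormedAddCommGroup K] [InnerProductSpace ℂ K] [CompleteSpace K]
  {M N : VonNeumannAlgebra H} {ξ : H} {U : ℝ → H →L[ℂ] H} {J0 : H → H}
  {ρ : (H →L[ℂ] H) → (H →L[ℂ] H)} {κ : (H →L[ℂ] H) →⋆ₐ[ℂ] (K →L[ℂ] K)} {e S : ℝ → K →L[ℂ] K}
  {W : K →L[ℂ] K} {J : ℝ → H →L[ℂ] K} {E : ℝ → ℂ → K →L[ℂ] K} {A : VonNeumannAlgebra K}

theorem ev_slice (F : Frame U κ e S W J E) {X : K →L[ℂ] K} {x : H →L[ℂ] H} (h : Ev M J X x) (v : H) :
    Tendsto (fun r : ℝ => ContinuousLinearMap.adjoint (J r) (X (J r v))) (𝓝[>] 0) (𝓝 (x v)) := by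
  have h1 := (h.2 v).norm
  rw [norm_zero] at h1
  rw [tendsto_iff_norm_sub_tendsto_zero]
  refine squeeze_zero' (Eventually.of_forall fun r => norm_nonneg _) ?_ h1
  filter_upwards [self_mem_nhdsWithin] with r hr
  have hr' : (0 : ℝ) < r := hr
  have h2 : ContinuousLinearMap.adjoint (J r) (X (J r v)) - x v =
      ContinuousLinearMap.adjoint (J r) (X (J r v) - J r (x v)) := by
    rw [map_sub, F.J_iso r _ hr']
  rw [h2]
  exact Ja_norm F hr' _

theorem ev_unique (F : Frame U κ e S W J E) {X : K →L[ℂ] K} {x x' : H →L[ℂ] H} (h : Ev M J X x)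
    (h' : Ev M J X x') : x = x' := by
  ext v
  exact tendsto_nhds_unique (ev_slice F h v) (ev_slice F h' v)

theorem ev_one : Ev M J (1 : K →L[ℂ] K) 1 := by
  refine ⟨one_mem M, fun v => ?_⟩
  simp

theorem ev_add {X Y : K →L[ℂ] K} {x y : H →L[ℂ] H} (hX : Ev M J X x) (hY : Ev M J Y y) :
    Ev M J (X + Y) (x + y) := by
  refine ⟨add_mem hX.1 hY.1, fun v => ?_⟩
  have h1 := (hX.2 v).add (hY.2 v)
  rw [add_zero] at h1
  refine h1.congr fun r => ?_
  simp only [ContinuousLinearMap.add_apply, map_add]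
  abel

theorem ev_smul (c : ℂ) {X : K →L[ℂ] K} {x : H →L[ℂ] H} (hX : Ev M J X x) :
    Ev M J (c • X) (c • x) := by
  refine ⟨M.toStarSubalgebra.smul_mem hX.1 c, fun v => ?_⟩
  have h1 := (hX.2 v).const_smul c
  rw [smul_zero] at h1
  refine h1.congr fun r => ?_
  simp only [ContinuousLinearMap.smul_apply, map_smul, smul_sub]

theorem ev_sub {X Y : K →L[ℂ] K} {x y : H →L[ℂ] H} (hX : Ev M J X x) (hY : Ev M J Y y) :
    Ev M J (X - Y) (x - y) := by
  have h1 := ev_add hX (ev_smul (-1) hY)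
  simpa [sub_eq_add_neg] using h1

theorem ev_mul {X Y : K →L[ℂ] K} {x y : H →L[ℂ] H} (hX : Ev M J X x) (hY : Ev M J Y y) :
    Ev M J (X * Y) (x * y) := by
  refine ⟨mul_mem hX.1 hY.1, fun v => ?_⟩
  have h1 : Tendsto (fun r : ℝ => X (Y (J r v) - J r (y v))) (𝓝[>] 0) (𝓝 0) := by
    have := (X.continuous.tendsto 0).comp (hY.2 v)
    rwa [map_zero] at this
  have h2 := h1.add (hX.2 (y v))
  rw [add_zero] at h2
  refine h2.congr fun r => ?_
  simp only [ContinuousLinearMap.mul_apply, map_sub]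
  abel

theorem ev_star (F : Frame U κ e S W J E) {X : K →L[ℂ] K} {x z : H →L[ℂ] H} (hX : Ev M J X x)
    (hz : Ev M J (star X) z) : z = star x := by
  refine ContinuousLinearMap.ext fun v => ext_inner_right ℂ fun w => ?_
  have h1 : Tendsto (fun r : ℝ => ⟪ContinuousLinearMap.adjoint (J r) (star X (J r v)), w⟫_ℂ)
      (𝓝[>] 0) (𝓝 ⟪z v, w⟫_ℂ) := (ev_slice F hz v).inner tendsto_const_nhds
  have h2 : Tendsto (fun r : ℝ => ⟪v, ContinuousLinearMap.adjoint (J r) (X (J r w))⟫_ℂ)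
      (𝓝[>] 0) (𝓝 ⟪v, x w⟫_ℂ) := tendsto_const_nhds.inner (ev_slice F hX w)
  have h3 : ∀ r : ℝ, ⟪ContinuousLinearMap.adjoint (J r) (star X (J r v)), w⟫_ℂ =
      ⟪v, ContinuousLinearMap.adjoint (J r) (X (J r w))⟫_ℂ := by
    intro r
    rw [ContinuousLinearMap.adjoint_inner_left, ContinuousLinearMap.adjoint_inner_right,
      ContinuousLinearMap.star_eq_adjoint, ContinuousLinearMap.adjoint_inner_left]
  have h4 := tendsto_nhds_unique (h1.congr h3) h2
  rw [h4, ContinuousLinearMap.star_eq_adjoint, ContinuousLinearMap.adjoint_inner_left]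

theorem sj_conj (F : Frame U κ e S W J E) (X : K →L[ℂ] K) : S (-0) * X * S 0 = X := by
  rw [neg_zero, F.S_zero, one_mul, mul_one]

/-- the flow on `K`, inverse relation -/
theorem S_conj_conj (F : Frame U κ e S W J E) (p q : ℝ) (X : K →L[ℂ] K) :
    S p * (S q * X * S (-q)) * S (-p) = S (p + q) * X * S (-(p + q)) := by
  have h1 : -(p + q) = -q + -p := by ring
  rw [h1, F.S_add, F.S_add]
  simp only [mul_assoc]

theorem S_conj_inv (F : Frame U κ e S W J E) (p : ℝ) (X : K →L[ℂ] K) :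
    S p * (S (-p) * X * S p) * S (-p) = X := by
  have h := S_conj_conj F p (-p) X
  rw [neg_neg, add_neg_cancel, neg_zero, F.S_zero, one_mul, mul_one] at h
  exact h

end

end Pool.Agent.H75.BC.G
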