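import Pool.Agent.H75.BC.G.Iso
import Pool.Agent.H75.BC.Stmts5

/-!
Uniqueness of the flow (helper75).
-/

set_option autoImplicit false
set_option linter.unusedSectionVars false
set_option linter.deprecated false

open MeasureTheory Filter Topology Complex
open scoped InnerProductSpace ENNReal

namespace Pool.Agent.H75.BC.G

open Pool.Agent.W662.CB Pool.Agent.H75.BC Pool.Agent.H75.BC.FB

noncomputable section

variable {H : Type} [NormedAddCommGroup H] [InnerProductSpace ℂ H] [CompleteSpace H]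
  {K : Type} [NormedAddCommGroup K] [InnerProductSpace ℂ K] [CompleteSpace K]
  {M N : VonNeumannAlgebra H} {ξ : H} {U : ℝ → H →L[ℂ] H} {J0 : H → H}
  {ρ : (H →L[ℂ] H) → (H →L[ℂ] H)} {κ : (H →L[ℂ] H) →⋆ₐ[ℂ] (K →L[ℂ] K)} {e S : ℝ → K →L[ℂ] K}
  {W : K →L[ℂ] K} {J : ℝ → H →L[ℂ] K} {E : ℝ → ℂ → K →L[ℂ] K} {A : VonNeumannAlgebra K}
  {Ex : (H →L[ℂ] H) → (H →L[ℂ] H)}

theorem bic_sub {x y : H →L[ℂ] H} (hx : x ∈ Bic N M ξ) (hy : y ∈ Bic N M ξ) :
    x - y ∈ Bic N M ξ := by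
  refine ⟨sub_mem hx.1 hy.1, fun a ha v => ?_⟩
  have h1 := (hx.2 a ha v).sub (hy.2 a ha v)
  rw [sub_zero] at h1
  refine h1.congr fun n => ?_
  simp only [ContinuousLinearMap.sub_apply, ContinuousLinearMap.mul_apply, map_sub]
  abel

theorem uni_ge (hSep : S_Sep) (D : CoreD M N ξ U κ e S W J E A) (R : RAct M ξ U J0 ρ)
    {β β' : ℝ → (H →L[ℂ] H) → (H →L[ℂ] H)} (hβ : IsFlow N M ξ β) (hβ' : IsFlow N M ξ β')
    {l : ℝ} (hl : 1 ≤ l) {x : H →L[ℂ] H} (hx : x ∈ Bic N M ξ) : β l x = β' l x := by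
  have hl0 : 0 < l := lt_of_lt_of_le one_pos hl
  have hz : β l x - β' l x ∈ Bic N M ξ := bic_sub (hβ.mem l x hl0 hx) (hβ'.mem l x hl0 hx)
  set z := β l x - β' l x with hzdef
  have hy : β l⁻¹ z ∈ Bic N M ξ := hβ.mem _ _ (inv_pos.2 hl0) hz
  have hby : β l (β l⁻¹ z) = z := by
    rw [← hβ.mul _ _ _ hl0 (inv_pos.2 hl0) hz, mul_inv_cancel₀ hl0.ne', hβ.one z hz]
  have h0 : β l⁻¹ z = 0 := by
    refine hSep H K M N ξ U J0 ρ κ e S W J E A D R l _ hl hy.1 fun a ha hL ht => ?_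
    -- `z a_n → 0`
    have h1 := (hβ.asym l x a hl0 hx ha hL ht ξ).1
    have h2 := (hβ'.asym l x a hl0 hx ha hL ht ξ).1
    have h3 : Tendsto (fun n => (z * a n) ξ) atTop (𝓝 0) := by
      have h4 := h2.sub h1
      rw [sub_zero] at h4
      refine h4.congr fun n => ?_
      rw [hzdef]
      simp only [ContinuousLinearMap.sub_apply, ContinuousLinearMap.mul_apply]
      abel
    have h5 := (hβ.asym l _ a hl0 hy ha hL ht ξ).1
    rw [hby] at h5
    have h6 := h5.add h3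
    rw [add_zero] at h6
    refine h6.congr fun n => ?_
    simp only [ContinuousLinearMap.sub_apply]
    abel
  have hz0 : z = 0 := by
    rw [← hby, h0]
    have h1 := hβ.map_smul l 0 _ hl0 hx
    rw [zero_smul, zero_smul] at h1
    exact h1
  exact sub_eq_zero.1 hz0

/-- the relative bicentralizer flow is unique -/
theorem uni (hSep : S_Sep) (D : CoreD M N ξ U κ e S W J E A) (R : RAct M ξ U J0 ρ)
    {β β' : ℝ → (H →L[ℂ] H) → (H →L[ℂ] H)} (hβ : IsFlow N M ξ β) (hβ' : IsFlow N M ξ β')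
    {l : ℝ} (hl : 0 < l) {x : H →L[ℂ] H} (hx : x ∈ Bic N M ξ) : β l x = β' l x := by
  rcases le_or_gt 1 l with h | h
  · exact uni_ge hSep D R hβ hβ' h hx
  · have hi : 1 ≤ l⁻¹ := (one_le_inv₀ hl).2 h.le
    have hl' : 0 < l⁻¹ := inv_pos.2 hl
    have hw : β l x ∈ Bic N M ξ := hβ.mem l x hl hx
    have h1 : β' l⁻¹ (β l x) = x := by
      rw [← uni_ge hSep D R hβ hβ' hi hw, ← hβ.mul _ _ _ hl' hl hx, inv_mul_cancel₀ hl.ne',
        hβ.one x hx]
    have h2 : β' l (β' l⁻¹ (β l x)) = β l x := by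
      rw [← hβ'.mul _ _ _ hl hl' hw, mul_inv_cancel₀ hl.ne', hβ'.one _ hw]
    rw [h1] at h2
    exact h2.symm

end

end Pool.Agent.H75.BC.G
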