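import Pool.Agent.Lead.BCB.Final
import Pool.Agent.H75.BC.G.Uni
import Pool.Agent.H75.BC.T.Sep

/-!
Uniqueness of the relative bicentralizer flow, in the notation of `FDefs` (helper75).
-/

set_option autoImplicit false

open MeasureTheory Filter Topology Complex
open scoped InnerProductSpace ENNReal

namespace Pool.Agent.H75.BC.FinUni

open Pool.Agent.W662.CB Pool.Agent.H75.BC Pool.Agent.H75.BC.FB Pool.Agent.Lead Pool.Agent.Lead.BCB

noncomputable section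

variable {H : Type} [NormedAddCommGroup H] [InnerProductSpace ℂ H] [CompleteSpace H]

theorem conv_flow {M N : VonNeumannAlgebra H} {ξ : H} {β : ℝ → (H →L[ℂ] H) → (H →L[ℂ] H)}
    (h : BicFlow.IsBicFlow N M ξ β) : G.IsFlow N M ξ β :=
  ⟨h.mem, h.one, h.mul, h.map_add, h.map_smul, h.map_mul, h.map_star, h.cont,
    fun l x a hl hx h1 h2 h3 => h.asym l x a hl hx ⟨h1, h2, h3⟩⟩

/-- Any two relative bicentralizer flows agree. -/
theorem flow_unique (H : Type) [NormedAddCommGroup H] [InnerProductSpace ℂ H] [CompleteSpace H]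
    (M N : VonNeumannAlgebra H) (ξ : H) (U : ℝ → H →L[ℂ] H) (E : (H →L[ℂ] H) → (H →L[ℂ] H))
    (hd : BicFlow.IsData M N ξ U E) (hN : BicFlow.IsTypeIIIOne N U)
    (β β' : ℝ → (H →L[ℂ] H) → (H →L[ℂ] H)) (hβ : BicFlow.IsBicFlow N M ξ β)
    (hβ' : BicFlow.IsBicFlow N M ξ β') :
    ∀ (l : ℝ) (x : H →L[ℂ] H), 0 < l → x ∈ BicFlow.Bic N M ξ → β' l x = β l x := by
  intro l x hl hx
  have hmod := conv_mod hd.modular
  have hce := conv_ce hd.condExp
  have hfac : IsFac (core N U) := hN.2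
  obtain ⟨κ, e, S, W, J, Eb, D, hκ, he, hW⟩ :=
    exists_coreD hd.le hd.unit hd.cyclic hd.sep hmod hce hd.invariant hfac
  obtain ⟨J0, ρ, R⟩ := aJ H M ξ U hd.unit hd.cyclic hd.sep hmod
  exact G.uni (Sep.s_Sep aCol) D R (conv_flow hβ') (conv_flow hβ) hl hx

/-- The final theorem of phase B with the uniqueness of the flow. -/
theorem final_unique (hSB : P_SB) (hB : P_Baire) (H : Type) [NormedAddCommGroup H]
    [InnerProductSpace ℂ H] [CompleteSpace H] [TopologicalSpace.SeparableSpace H]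
    (M N : VonNeumannAlgebra H) (ξ : H) (U : ℝ → H →L[ℂ] H) (E : (H →L[ℂ] H) → (H →L[ℂ] H))
    (hd : BicFlow.IsData M N ξ U E) (hN : BicFlow.IsTypeIIIOne N U) (w : ℝ → H →L[ℂ] H)
    (hw : BicFlow.IsDominant N U w) :
    ∃ (β : ℝ → (H →L[ℂ] H) → (H →L[ℂ] H)) (π : (H →L[ℂ] H) → (H →L[ℂ] H)),
      BicFlow.IsBicFlow N M ξ β ∧
      (∀ β' : ℝ → (H →L[ℂ] H) → (H →L[ℂ] H), BicFlow.IsBicFlow N M ξ β' →
        ∀ (l : ℝ) (x : H →L[ℂ] H), 0 < l → x ∈ BicFlow.Bic N M ξ → β' l x = β l x) ∧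
      BicFlow.IsNormalIso (BicFlow.Bic N M ξ) (BicFlow.RelComm N M U w) π ∧
      (∀ (l : ℝ) (u x : H →L[ℂ] H), 0 < l → BicFlow.Scales N U w l u → x ∈ BicFlow.Bic N M ξ →
        u * π x * star u = π (β l x)) ∧
      ∀ x : H →L[ℂ] H, x ∈ BicFlow.Bic N M ξ → E (π x) = BicFlow.vst ξ (E x) • (1 : H →L[ℂ] H) := by
  obtain ⟨β, π, h1, h2, h3, h4⟩ := final hSB hB H M N ξ U E hd hN w hw
  exact ⟨β, π, h1, fun β' hβ' => flow_unique H M N ξ U E hd hN β β' h1 hβ', h2, h3, h4⟩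

end

end Pool.Agent.H75.BC.FinUni
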