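import Pool.Agent.H75.BC.G.Abs

/-!
The isomorphism `π` and the flow `β` (helper75).
-/

set_option autoImplicit false
set_option linter.unusedSectionVars false
set_option linter.deprecated false

open MeasureTheory Filter Topology Complex
open scoped InnerProductSpace ENNReal

namespace Pool.Agent.H75.BC.G

open Pool.Agent.W662.CB Pool.Agent.H75.BC Pool.Agent.H75.BC.FB

noncomputable section

variable {H : Type} [NormedAddCommGroup H] [InnerProductSpace ℂ H] [CompleteSpace H]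
  {K : Type} [NormedAddCommGroup K] [InnerProductSpace ℂ K] [CompleteSpace K]
  {M N : VonNeumannAlgebra H} {ξ : H} {U : ℝ → H →L[ℂ] H} {J0 : H → H}
  {ρ : (H →L[ℂ] H) → (H →L[ℂ] H)} {κ : (H →L[ℂ] H) →⋆ₐ[ℂ] (K →L[ℂ] K)} {e S : ℝ → K →L[ℂ] K}
  {W : K →L[ℂ] K} {J : ℝ → H →L[ℂ] K} {E : ℝ → ℂ → K →L[ℂ] K} {A : VonNeumannAlgebra K}
  {Ex : (H →L[ℂ] H) → (H →L[ℂ] H)}

/-- `β` is the relative bicentralizer flow. -/
structure IsFlow (N M : VonNeumannAlgebra H) (ξ : H) (β : ℝ → (H →L[ℂ] H) → (H →L[ℂ] H)) : Prop where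
  mem : ∀ (l : ℝ) (x : H →L[ℂ] H), 0 < l → x ∈ Bic N M ξ → β l x ∈ Bic N M ξ
  one : ∀ x : H →L[ℂ] H, x ∈ Bic N M ξ → β 1 x = x
  mul : ∀ (l m : ℝ) (x : H →L[ℂ] H), 0 < l → 0 < m → x ∈ Bic N M ξ → β (l * m) x = β l (β m x)
  map_add : ∀ (l : ℝ) (x y : H →L[ℂ] H), 0 < l → x ∈ Bic N M ξ → y ∈ Bic N M ξ →
    β l (x + y) = β l x + β l y
  map_smul : ∀ (l : ℝ) (c : ℂ) (x : H →L[ℂ] H), 0 < l → x ∈ Bic N M ξ → β l (c • x) = c • β l x
  map_mul : ∀ (l : ℝ) (x y : H →L[ℂ] H), 0 < l → x ∈ Bic N M ξ → y ∈ Bic N M ξ →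
    β l (x * y) = β l x * β l y
  map_star : ∀ (l : ℝ) (x : H →L[ℂ] H), 0 < l → x ∈ Bic N M ξ → β l (star x) = star (β l x)
  cont : ∀ (x : H →L[ℂ] H) (v : H), x ∈ Bic N M ξ → ContinuousOn (fun l => β l x v) (Set.Ioi 0)
  asym : ∀ (l : ℝ) (x : H →L[ℂ] H) (a : ℕ → H →L[ℂ] H), 0 < l → x ∈ Bic N M ξ →
    (∀ n, a n ∈ N) → (∃ C : ℝ, ∀ n, ‖a n‖ ≤ C) → Tendsto (fun n => fnorm N ξ l (a n)) atTop (𝓝 0) →
    ∀ v : H, Tendsto (fun n => (a n * x - β l x * a n) v) atTop (𝓝 0) ∧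
      Tendsto (fun n => star (a n * x - β l x * a n) v) atTop (𝓝 0)

/-- `π` is a normal `*`-isomorphism from `B` onto `C` (two von Neumann algebras, given as sets). -/
structure IsIso (B : Set (H →L[ℂ] H)) (C : Set (K →L[ℂ] K)) (π : (H →L[ℂ] H) → (K →L[ℂ] K)) :
    Prop where
  maps : ∀ x : H →L[ℂ] H, x ∈ B → π x ∈ C
  inj : ∀ x y : H →L[ℂ] H, x ∈ B → y ∈ B → π x = π y → x = y
  surj : ∀ X : K →L[ℂ] K, X ∈ C → ∃ x : H →L[ℂ] H, x ∈ B ∧ π x = X
  map_one : π 1 = 1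
  map_add : ∀ x y : H →L[ℂ] H, x ∈ B → y ∈ B → π (x + y) = π x + π y
  map_smul : ∀ (c : ℂ) (x : H →L[ℂ] H), x ∈ B → π (c • x) = c • π x
  map_mul : ∀ x y : H →L[ℂ] H, x ∈ B → y ∈ B → π (x * y) = π x * π y
  map_star : ∀ x : H →L[ℂ] H, x ∈ B → π (star x) = star (π x)
  normal : ∀ (ι : Type) (l : Filter ι) (f : ι → H →L[ℂ] H) (x : H →L[ℂ] H) (C : ℝ),
    (∀ i, f i ∈ B ∧ ‖f i‖ ≤ C) → x ∈ B → (∀ v : H, Tendsto (fun i => f i v) l (𝓝 (x v))) →
    ∀ v : K, Tendsto (fun i => π (f i) v) l (𝓝 (π x v))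

open Classical in
/-- the isomorphism -/
def pi (M : VonNeumannAlgebra H) (κ : (H →L[ℂ] H) →⋆ₐ[ℂ] (K →L[ℂ] K)) (J : ℝ → H →L[ℂ] K)
    (A : VonNeumannAlgebra K) (x : H →L[ℂ] H) : K →L[ℂ] K :=
  if h : ∃ X : K →L[ℂ] K, X ∈ RR M κ A ∧ Ev M J X x then h.choose else 0

open Classical in
/-- the flow -/
def beta (M : VonNeumannAlgebra H) (κ : (H →L[ℂ] H) →⋆ₐ[ℂ] (K →L[ℂ] K)) (S : ℝ → K →L[ℂ] K)
    (J : ℝ → H →L[ℂ] K) (A : VonNeumannAlgebra K) (l : ℝ) (x : H →L[ℂ] H) : H →L[ℂ] H :=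
  if h : ∃ y : H →L[ℂ] H, Ev M J (S (-(Real.log l / (2 * Real.pi))) * pi M κ J A x *
    S (Real.log l / (2 * Real.pi))) y then h.choose else 0

theorem pi_spec' {x : H →L[ℂ] H} (h : ∃ X : K →L[ℂ] K, X ∈ RR M κ A ∧ Ev M J X x) :
    pi M κ J A x ∈ RR M κ A ∧ Ev M J (pi M κ J A x) x := by
  unfold pi
  rw [dif_pos h]
  exact h.choose_spec

theorem pi_spec (hL : S_L) (hEx : S_Ex) (hEv : S_Ev) (D : CoreD M N ξ U κ e S W J E A)
    (R : RAct M ξ U J0 ρ) {x : H →L[ℂ] H} (hx : x ∈ Bic N M ξ) :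
    pi M κ J A x ∈ RR M κ A ∧ Ev M J (pi M κ J A x) x := by
  obtain ⟨X, h1, h2, -⟩ := val_surj hL hEx hEv D R hx
  exact pi_spec' ⟨X, h1, h2⟩

theorem pi_eq (hEv : S_Ev) (hInj : S_Inj) (D : CoreD M N ξ U κ e S W J E A)
    {x : H →L[ℂ] H} {X : K →L[ℂ] K} (h1 : X ∈ RR M κ A) (h2 : Ev M J X x) :
    pi M κ J A x = X :=
  val_inj hEv hInj D (pi_spec' ⟨X, h1, h2⟩).1 h1 (pi_spec' ⟨X, h1, h2⟩).2 h2

theorem beta_spec (hL : S_L) (hEx : S_Ex) (hEv : S_Ev) (D : CoreD M N ξ U κ e S W J E A)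
    (R : RAct M ξ U J0 ρ) {x : H →L[ℂ] H} (hx : x ∈ Bic N M ξ) (l : ℝ) :
    Ev M J (S (-(Real.log l / (2 * Real.pi))) * pi M κ J A x *
      S (Real.log l / (2 * Real.pi))) (beta M κ S J A l x) := by
  have h1 := (pi_spec hL hEx hEv D R hx).1
  have h2 := RR_S D (-(Real.log l / (2 * Real.pi))) h1
  rw [neg_neg] at h2
  obtain ⟨y, h3, -⟩ := val hEv D h2
  have h4 : ∃ y : H →L[ℂ] H, Ev M J (S (-(Real.log l / (2 * Real.pi))) * pi M κ J A x *
    S (Real.log l / (2 * Real.pi))) y := ⟨y, h3⟩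
  unfold beta
  rw [dif_pos h4]
  exact h4.choose_spec

/-- values at the box vectors -/
theorem norm_box (hEv : S_Ev) (hF1 : S_F1c) (D : CoreD M N ξ U κ e S W J E A) {X : K →L[ℂ] K}
    (hX : X ∈ RR M κ A) {x : H →L[ℂ] H} (hx : Ev M J X x) (p r : ℝ) (hr : 0 < r) :
    ‖X (S p (J r ξ))‖ = ‖x ξ‖ := by
  have h1 := hF1 H K M N ξ U κ e S W J E A D _ (RR_mul (RR_star hX) hX) p r hr
  have h2 : ∀ w : K, ⟪w, (star X * X) w⟫_ℂ = ((‖X w‖ ^ 2 : ℝ) : ℂ) := by
    intro w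
    show ⟪w, star X (X w)⟫_ℂ = _
    rw [ContinuousLinearMap.star_eq_adjoint, ContinuousLinearMap.adjoint_inner_right,
      inner_self_eq_norm_sq_to_K]
    push_cast
    rfl
  rw [h2, h2] at h1
  have h3 : ‖X (S p (J r ξ))‖ ^ 2 = ‖X (J 1 ξ)‖ ^ 2 := by exact_mod_cast h1
  rw [val_norm hEv D hX hx]
  exact (sq_eq_sq₀ (norm_nonneg _) (norm_nonneg _)).1 h3

theorem bic_sub_aux (hAC : S_AC) (hFl : S_Flow) (D : CoreD M N ξ U κ e S W J E A)
    (R : RAct M ξ U J0 ρ) (hC : CE M N ξ Ex) {X Y : K →L[ℂ] K} (hX : X ∈ RR M κ A)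
    (hY : Y ∈ RR M κ A) {x y : H →L[ℂ] H} (hx : Ev M J X x) (hy : Ev M J Y y) :
    x - y ∈ Bic N M ξ := ev_bic hAC hFl D R hC (RR_sub hX hY) (ev_sub hx hy)

/-- The abstract main theorem. -/
theorem abs_main (hL : S_L) (hEx : S_Ex) (hEv : S_Ev) (hInj : S_Inj) (hF1 : S_F1c) (hCT : S_CT)
    (hAC : S_AC) (hFl : S_Flow) (D : CoreD M N ξ U κ e S W J E A) (R : RAct M ξ U J0 ρ)
    (hC : CE M N ξ Ex) :
    ∃ (β : ℝ → (H →L[ℂ] H) → (H →L[ℂ] H)) (π : (H →L[ℂ] H) → (K →L[ℂ] K)),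
      IsFlow N M ξ β ∧ IsIso (Bic N M ξ) (RR M κ A) π ∧
      (∀ (l : ℝ) (x : H →L[ℂ] H), 0 < l → x ∈ Bic N M ξ →
        π (β l x) = S (-(Real.log l / (2 * Real.pi))) * π x * S (Real.log l / (2 * Real.pi))) ∧
      (∀ P : H →L[ℂ] H, (∀ x : H →L[ℂ] H, x ∈ M → P (x ξ) = Ex x ξ) →
        ∀ x : H →L[ℂ] H, x ∈ Bic N M ξ → κ P * π x * κ P = vst ξ x • κ P) ∧
      ∀ x : H →L[ℂ] H, x ∈ Bic N M ξ → Ev M J (π x) x := by
  have F := D.fr
  have hπ : ∀ x : H →L[ℂ] H, x ∈ Bic N M ξ → pi M κ J A x ∈ RR M κ A ∧ Ev M J (pi M κ J A x) x :=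
    fun x hx => pi_spec hL hEx hEv D R hx
  have hπe : ∀ (x : H →L[ℂ] H) (X : K →L[ℂ] K), X ∈ RR M κ A → Ev M J X x → pi M κ J A x = X :=
    fun x X h1 h2 => pi_eq hEv hInj D h1 h2
  have hS : ∀ (X : K →L[ℂ] K) (p : ℝ), X ∈ RR M κ A → S (-p) * X * S p ∈ RR M κ A := by
    intro X p hX
    have h := RR_S D (-p) hX
    rwa [neg_neg] at h
  have hβ : ∀ (l : ℝ) (x : H →L[ℂ] H), x ∈ Bic N M ξ →
      Ev M J (S (-(Real.log l / (2 * Real.pi))) * pi M κ J A x *
        S (Real.log l / (2 * Real.pi))) (beta M κ S J A l x) :=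
    fun l x hx => beta_spec hL hEx hEv D R hx l
  have hβm : ∀ (l : ℝ) (x : H →L[ℂ] H), x ∈ Bic N M ξ → beta M κ S J A l x ∈ Bic N M ξ :=
    fun l x hx => ev_bic hAC hFl D R hC (hS _ _ (hπ x hx).1) (hβ l x hx)
  have hβe : ∀ (l : ℝ) (x : H →L[ℂ] H) (y : H →L[ℂ] H), x ∈ Bic N M ξ →
      Ev M J (S (-(Real.log l / (2 * Real.pi))) * pi M κ J A x *
        S (Real.log l / (2 * Real.pi))) y → beta M κ S J A l x = y :=
    fun l x y hx hy => ev_unique F (hβ l x hx) hy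
  have hπβ : ∀ (l : ℝ) (x : H →L[ℂ] H), x ∈ Bic N M ξ →
      pi M κ J A (beta M κ S J A l x) = S (-(Real.log l / (2 * Real.pi))) * pi M κ J A x *
        S (Real.log l / (2 * Real.pi)) :=
    fun l x hx => hπe _ _ (hS _ _ (hπ x hx).1) (hβ l x hx)
  -- algebraic closure properties
  have hadd : ∀ x y : H →L[ℂ] H, x ∈ Bic N M ξ → y ∈ Bic N M ξ → x + y ∈ Bic N M ξ ∧
      pi M κ J A (x + y) = pi M κ J A x + pi M κ J A y := by
    intro x y hx hy
    have h1 := RR_add (hπ x hx).1 (hπ y hy).1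
    have h2 := ev_add (hπ x hx).2 (hπ y hy).2
    exact ⟨ev_bic hAC hFl D R hC h1 h2, hπe _ _ h1 h2⟩
  have hsmul : ∀ (c : ℂ) (x : H →L[ℂ] H), x ∈ Bic N M ξ → c • x ∈ Bic N M ξ ∧
      pi M κ J A (c • x) = c • pi M κ J A x := by
    intro c x hx
    have h1 := RR_smul c (hπ x hx).1
    have h2 := ev_smul c (hπ x hx).2
    exact ⟨ev_bic hAC hFl D R hC h1 h2, hπe _ _ h1 h2⟩
  have hmul : ∀ x y : H →L[ℂ] H, x ∈ Bic N M ξ → y ∈ Bic N M ξ → x * y ∈ Bic N M ξ ∧
      pi M κ J A (x * y) = pi M κ J A x * pi M κ J A y := by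
    intro x y hx hy
    have h1 := RR_mul (hπ x hx).1 (hπ y hy).1
    have h2 := ev_mul (hπ x hx).2 (hπ y hy).2
    exact ⟨ev_bic hAC hFl D R hC h1 h2, hπe _ _ h1 h2⟩
  have hstar0 : ∀ (X : K →L[ℂ] K) (x : H →L[ℂ] H), X ∈ RR M κ A → Ev M J X x →
      Ev M J (star X) (star x) := by
    intro X x hX hx
    obtain ⟨z, h1, -⟩ := val hEv D (RR_star hX)
    rw [← ev_star F hx h1]
    exact h1
  have hstar : ∀ x : H →L[ℂ] H, x ∈ Bic N M ξ → star x ∈ Bic N M ξ ∧
      pi M κ J A (star x) = star (pi M κ J A x) := by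
    intro x hx
    have h1 := RR_star (hπ x hx).1
    have h2 := hstar0 _ _ (hπ x hx).1 (hπ x hx).2
    exact ⟨ev_bic hAC hFl D R hC h1 h2, hπe _ _ h1 h2⟩
  have hSadd : ∀ (p : ℝ) (X Y : K →L[ℂ] K), S (-p) * (X + Y) * S p =
      S (-p) * X * S p + S (-p) * Y * S p := by
    intro p X Y; rw [mul_add, add_mul]
  have hSmul : ∀ (p : ℝ) (X Y : K →L[ℂ] K), S (-p) * (X * Y) * S p =
      (S (-p) * X * S p) * (S (-p) * Y * S p) := by
    intro p X Y
    calc S (-p) * (X * Y) * S p = S (-p) * X * 1 * Y * S p := by rw [mul_one]; simp only [mul_assoc]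
      _ = S (-p) * X * (S p * S (-p)) * Y * S p := by rw [S_mul_neg F]
      _ = _ := by simp only [mul_assoc]
  -- `l ↦ β_l(x) v` is continuous
  have hcont : ∀ (x : H →L[ℂ] H) (v : H), x ∈ Bic N M ξ →
      ContinuousOn (fun l => beta M κ S J A l x v) (Set.Ioi 0) := by
    intro x v hx l0 hl0
    -- distance in terms of `K`
    have hd : ∀ l l' : ℝ, ‖(beta M κ S J A l x - beta M κ S J A l' x) ξ‖ =
        ‖(S (-(Real.log l / (2 * Real.pi))) * pi M κ J A x * S (Real.log l / (2 * Real.pi)) -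
          S (-(Real.log l' / (2 * Real.pi))) * pi M κ J A x * S (Real.log l' / (2 * Real.pi)))
          (J 1 ξ)‖ := fun l l' =>
      val_norm hEv D (RR_sub (hS _ _ (hπ x hx).1) (hS _ _ (hπ x hx).1)) (ev_sub (hβ l x hx) (hβ l' x hx))
    have hbd : ∀ l : ℝ, ‖beta M κ S J A l x‖ ≤ ‖pi M κ J A x‖ := by
      intro l
      refine ContinuousLinearMap.opNorm_le_bound _ (norm_nonneg _) fun w => ?_
      have h1 := (ev_slice F (hβ l x hx) w).norm
      refine le_of_tendsto h1 ?_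
      filter_upwards [self_mem_nhdsWithin] with r hr
      have hr' : (0 : ℝ) < r := hr
      refine (Ja_norm F hr' _).trans ?_
      show ‖S (-(Real.log l / (2 * Real.pi))) (pi M κ J A x (S (Real.log l / (2 * Real.pi)) (J r w)))‖ ≤ _
      rw [S_norm F]
      refine ((pi M κ J A x).le_opNorm _).trans ?_
      rw [S_norm F, J_norm F hr']
    -- convergence at `ξ`
    have hξ : Tendsto (fun l => (beta M κ S J A l x - beta M κ S J A l0 x) ξ)
        (𝓝[Set.Ioi 0] l0) (𝓝 0) := by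
      rw [tendsto_zero_iff_norm_tendsto_zero]
      simp only [hd]
      have hlog : Tendsto (fun l : ℝ => Real.log l / (2 * Real.pi)) (𝓝[Set.Ioi 0] l0)
          (𝓝 (Real.log l0 / (2 * Real.pi))) :=
        ((Real.continuousAt_log (ne_of_gt hl0)).div_const _).continuousWithinAt
      have hc1 : Continuous fun q : ℝ => ‖(S (-q) * pi M κ J A x * S q -
          S (-(Real.log l0 / (2 * Real.pi))) * pi M κ J A x * S (Real.log l0 / (2 * Real.pi)))
          (J 1 ξ)‖ := by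
        refine continuous_norm.comp ?_
        refine Continuous.sub ?_ continuous_const
        show Continuous fun q : ℝ => S (-q) (pi M κ J A x (S q (J 1 ξ)))
        -- joint continuity
        rw [continuous_iff_continuousAt]
        intro q0
        have h1 : Continuous fun q : ℝ => pi M κ J A x (S q (J 1 ξ)) :=
          (pi M κ J A x).continuous.comp (F.S_cont _)
        rw [ContinuousAt, tendsto_iff_norm_sub_tendsto_zero]
        have h2 : Tendsto (fun q : ℝ => ‖pi M κ J A x (S q (J 1 ξ)) - pi M κ J A x (S q0 (J 1 ξ))‖ +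
            ‖S (-q) (pi M κ J A x (S q0 (J 1 ξ))) - S (-q0) (pi M κ J A x (S q0 (J 1 ξ)))‖)
            (𝓝 q0) (𝓝 0) := by
          have h3 := tendsto_iff_norm_sub_tendsto_zero.1 (h1.tendsto q0)
          have h4 : Continuous fun q : ℝ => S (-q) (pi M κ J A x (S q0 (J 1 ξ))) :=
            (F.S_cont _).comp continuous_neg
          have h5 := tendsto_iff_norm_sub_tendsto_zero.1 (h4.tendsto q0)
          have h6 := h3.add h5
          rwa [add_zero] at h6
        refine squeeze_zero (fun q => norm_nonneg _) (fun q => ?_) h2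
        have h7 : S (-q) (pi M κ J A x (S q (J 1 ξ))) - S (-q0) (pi M κ J A x (S q0 (J 1 ξ))) =
            S (-q) (pi M κ J A x (S q (J 1 ξ)) - pi M κ J A x (S q0 (J 1 ξ))) +
            (S (-q) (pi M κ J A x (S q0 (J 1 ξ))) - S (-q0) (pi M κ J A x (S q0 (J 1 ξ)))) := by
          rw [map_sub]; abel
        rw [h7]
        refine (norm_add_le _ _).trans ?_
        rw [S_norm F]
      have h3 := (hc1.tendsto (Real.log l0 / (2 * Real.pi))).comp hlog
      simpa [Function.comp_def] using h3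
    -- general vectors
    rw [ContinuousWithinAt, tendsto_iff_norm_sub_tendsto_zero]
    rw [Metric.tendsto_nhds]
    intro ε hε
    obtain ⟨w, hw, hw1⟩ := Metric.mem_closure_iff.1 (Flow.comm_cyc D.std.sep v)
      (ε / (4 * (‖pi M κ J A x‖ + 1))) (by positivity)
    obtain ⟨m, hm, rfl⟩ := hw
    have h1 : Tendsto (fun l => m ((beta M κ S J A l x - beta M κ S J A l0 x) ξ))
        (𝓝[Set.Ioi 0] l0) (𝓝 0) := by
      have := (m.continuous.tendsto 0).comp hξ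
      rwa [map_zero] at this
    have h2 := Metric.tendsto_nhds.1 h1 (ε / 2) (by positivity)
    filter_upwards [h2] with l hl
    rw [dist_zero_right] at hl
    rw [Real.dist_eq, sub_zero, abs_of_nonneg (norm_nonneg _)]
    have hmem : beta M κ S J A l x - beta M κ S J A l0 x ∈ M := sub_mem (hβm l x hx).1 (hβm l0 x hx).1
    have h3 : (beta M κ S J A l x - beta M κ S J A l0 x) (m ξ) =
        m ((beta M κ S J A l x - beta M κ S J A l0 x) ξ) :=
      congrArg (fun T : H →L[ℂ] H => T ξ) ((VonNeumannAlgebra.mem_commutant_iff.1 hm) _ hmem)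
    have h4 : beta M κ S J A l x v - beta M κ S J A l0 x v =
        (beta M κ S J A l x - beta M κ S J A l0 x) (v - m ξ) +
        (beta M κ S J A l x - beta M κ S J A l0 x) (m ξ) := by
      rw [← map_add, sub_add_cancel]
      rfl
    have h5 : ‖beta M κ S J A l x - beta M κ S J A l0 x‖ ≤ 2 * ‖pi M κ J A x‖ := by
      refine (norm_sub_le _ _).trans ?_
      linarith [hbd l, hbd l0]
    have h6 : ‖v - m ξ‖ ≤ ε / (4 * (‖pi M κ J A x‖ + 1)) := by rw [← dist_eq_norm]; exact hw1.le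
    have h7 : ‖(beta M κ S J A l x - beta M κ S J A l0 x) (v - m ξ)‖ ≤
        (2 * (‖pi M κ J A x‖ + 1)) * (ε / (4 * (‖pi M κ J A x‖ + 1))) :=
      ((beta M κ S J A l x - beta M κ S J A l0 x).le_opNorm _).trans
        (mul_le_mul (by linarith) h6 (norm_nonneg _) (by positivity))
    have h8 : (2 * (‖pi M κ J A x‖ + 1)) * (ε / (4 * (‖pi M κ J A x‖ + 1))) = ε / 2 := by
      field_simp; ring
    rw [h4, h3]
    refine (norm_add_le _ _).trans_lt ?_
    linarith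
  refine ⟨beta M κ S J A, pi M κ J A, ?_, ?_, fun l x _ hx => hπβ l x hx, ?_, fun x hx => (hπ x hx).2⟩
  · refine ⟨fun l x _ hx => hβm l x hx, fun x hx => ?_, fun l m x hl hm hx => ?_,
      fun l x y _ hx hy => ?_, fun l c x _ hx => ?_, fun l x y _ hx hy => ?_, fun l x _ hx => ?_,
      hcont, fun l x a hl hx ha hL' ht v => ?_⟩
    · refine hβe 1 x x hx ?_
      rw [Real.log_one, zero_div, neg_zero, F.S_zero, one_mul, mul_one]
      exact (hπ x hx).2
    · refine hβe _ _ _ hx ?_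
      have h1 := hβ l _ (hβm m x hx)
      rw [hπβ m x hx] at h1
      have h2 : S (-(Real.log l / (2 * Real.pi))) * (S (-(Real.log m / (2 * Real.pi))) *
          pi M κ J A x * S (Real.log m / (2 * Real.pi))) * S (Real.log l / (2 * Real.pi)) =
          S (-(Real.log (l * m) / (2 * Real.pi))) * pi M κ J A x *
            S (Real.log (l * m) / (2 * Real.pi)) := by
        have h3 := S_conj_conj F (-(Real.log l / (2 * Real.pi))) (-(Real.log m / (2 * Real.pi)))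
          (pi M κ J A x)
        rw [neg_neg, neg_neg] at h3
        rw [h3, Real.log_mul hl.ne' hm.ne']
        congr 2
        · congr 1; ring
        · ring
      rw [h2] at h1
      exact h1
    · refine hβe _ _ _ (hadd x y hx hy).1 ?_
      rw [(hadd x y hx hy).2, hSadd]
      exact ev_add (hβ l x hx) (hβ l y hy)
    · refine hβe _ _ _ (hsmul c x hx).1 ?_
      rw [(hsmul c x hx).2, mul_smul_comm, smul_mul_assoc]
      exact ev_smul c (hβ l x hx)
    · refine hβe _ _ _ (hmul x y hx hy).1 ?_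
      rw [(hmul x y hx hy).2, hSmul]
      exact ev_mul (hβ l x hx) (hβ l y hy)
    · refine hβe _ _ _ (hstar x hx).1 ?_
      have h1 := hstar0 _ _ (hS _ _ (hπ x hx).1) (hβ l x hx)
      rw [(hstar x hx).2]
      rw [star_mul, star_mul, F.S_star, F.S_star, neg_neg, ← mul_assoc] at h1
      exact h1
    · obtain ⟨L, hL''⟩ := hL'
      have hc : 0 < Real.sqrt l := Real.sqrt_pos.2 hl
      have hp : Real.pi * (Real.log l / (2 * Real.pi)) = Real.log (Real.sqrt l) := by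
        rw [Real.log_sqrt hl.le]
        field_simp
      refine flow2 hEv hAC hFl D R hC (hπ x hx).1 hc hp (hπ x hx).2 (hβ l x hx) ha hL'' ?_ v
      rw [Real.sq_sqrt hl.le]
      exact ht
  · refine ⟨fun x hx => (hπ x hx).1, fun x y hx hy h => ?_, fun X hX => ?_, ?_,
      fun x y hx hy => (hadd x y hx hy).2, fun c x hx => (hsmul c x hx).2,
      fun x y hx hy => (hmul x y hx hy).2, fun x hx => (hstar x hx).2, ?_⟩
    · have h1 := (hπ x hx).2
      rw [h] at h1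
      exact ev_unique F h1 (hπ y hy).2
    · obtain ⟨x, hx, -⟩ := val hEv D hX
      exact ⟨x, ev_bic hAC hFl D R hC hX hx, hπe _ _ hX hx⟩
    · exact hπe _ _ RR_one ev_one
    · intro ι l f x C hf hx hlim v
      have hsub : ∀ i, pi M κ J A (f i) v - pi M κ J A x v = (pi M κ J A (f i) - pi M κ J A x) v :=
        fun i => rfl
      rw [tendsto_iff_norm_sub_tendsto_zero]
      simp only [hsub]
      rw [← tendsto_zero_iff_norm_tendsto_zero]
      -- norm bound for `π`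
      have hnb : ∀ y : H →L[ℂ] H, y ∈ Bic N M ξ → ‖pi M κ J A y‖ ≤ ‖y‖ := by
        intro y hy
        obtain ⟨X, h1, h2, h3⟩ := val_surj hL hEx hEv D R hy
        rw [hπe y X h1 h2]
        exact h3
      refine tend_tot F D.std.sep _ (C + ‖x‖) (fun i => ?_) (fun t p r m hr hm => ?_) v
      · refine (norm_sub_le _ _).trans ?_
        exact add_le_add ((hnb _ (hf i).1).trans (hf i).2) (hnb x hx)
      · have h1 : ∀ i, ‖(pi M κ J A (f i) - pi M κ J A x) (e t (S p (J r (m ξ))))‖ ≤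
            ‖m‖ * ‖(f i - x) ξ‖ := by
          intro i
          have hY : pi M κ J A (f i) - pi M κ J A x ∈ RR M κ A := RR_sub (hπ _ (hf i).1).1 (hπ x hx).1
          have hEy := ev_sub (hπ _ (hf i).1).2 (hπ x hx).2
          set Y := pi M κ J A (f i) - pi M κ J A x
          have e1 : Y (e t (S p (J r (m ξ)))) = e t (κ m (Y (S p (J r ξ)))) := by
            have e2 : Y (e t (S p (J r (m ξ)))) = e t (Y (S p (J r (m ξ)))) :=
              ap (hY.2 _ (D.gen_e t)) _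
            have e3 : κ m (S p (J r ξ)) = S p (κ m (J r ξ)) := ap (F.κ_S m p) _
            have e4 : Y (κ m (S p (J r ξ))) = κ m (Y (S p (J r ξ))) := ap (hY.1 m hm) _
            rw [e2, ← e4, e3, F.κ_J _ _ _ hr]
          rw [e1, e_norm F]
          refine ((κ m).le_opNorm _).trans ?_
          rw [norm_box hEv hF1 D hY hEy p r hr]
          exact mul_le_mul_of_nonneg_right (Flow.κ_norm_le κ m) (norm_nonneg _)
        have h2 : Tendsto (fun i => ‖m‖ * ‖(f i - x) ξ‖) l (𝓝 0) := by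
          have h3 := tendsto_iff_norm_sub_tendsto_zero.1 (hlim ξ)
          have h4 := h3.const_mul ‖m‖
          rw [mul_zero] at h4
          exact h4
        rw [tendsto_zero_iff_norm_tendsto_zero]
        exact squeeze_zero (fun i => norm_nonneg _) h1 h2
  · intro P hP x hx
    exact ce_core hL hEx hEv hF1 hCT hAC hFl D R hC hP (hπ x hx).1 (hπ x hx).2

end

end Pool.Agent.H75.BC.G
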