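import Pool.Agent.H75.BC.G.EvB
import Pool.Agent.H75.BC.T.Flow

/-!
The abstract main theorem (helper75).
-/

set_option autoImplicit false
set_option linter.unusedSectionVars false
set_option linter.deprecated false

open MeasureTheory Filter Topology Complex
open scoped InnerProductSpace ENNReal

namespace Pool.Agent.H75.BC.G

open Pool.Agent.W662.CB Pool.Agent.H75.BC Pool.Agent.H75.BC.FB

noncomputable section

variable {H : Type} [NormedAddCommGroup H] [InnerProductSpace ℂ H] [CompleteSpace H]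
  {K : Type} [NormedAddCommGroup K] [InnerProductSpace ℂ K] [CompleteSpace K]
  {M N : VonNeumannAlgebra H} {ξ : H} {U : ℝ → H →L[ℂ] H} {J0 : H → H}
  {ρ : (H →L[ℂ] H) → (H →L[ℂ] H)} {κ : (H →L[ℂ] H) →⋆ₐ[ℂ] (K →L[ℂ] K)} {e S : ℝ → K →L[ℂ] K}
  {W : K →L[ℂ] K} {J : ℝ → H →L[ℂ] K} {E : ℝ → ℂ → K →L[ℂ] K} {A : VonNeumannAlgebra K}
  {Ex : (H →L[ℂ] H) → (H →L[ℂ] H)}

/-! ### The conditional expectation -/

/-- conditional expectations are contractions -/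
theorem ce_norm (hle : ∀ x : H →L[ℂ] H, x ∈ N → x ∈ M) (hE : IsCondExp M N Ex) {x : H →L[ℂ] H}
    (hx : x ∈ M) : ‖Ex x‖ ≤ ‖x‖ := by
  have hEx : Ex x ∈ N := hE.mem x hx
  have hsEx : star (Ex x) ∈ N := star_mem hEx
  have hsx : star x ∈ M := star_mem hx
  -- `E(x)* E(x) ≤ E(x* x)`
  have h1 : 0 ≤ Ex (star (x - Ex x) * (x - Ex x)) :=
    hE.pos _ (mul_mem (star_mem (sub_mem hx (hle _ hEx))) (sub_mem hx (hle _ hEx)))
      (star_mul_self_nonneg _)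
  have h2 : Ex (star (x - Ex x) * (x - Ex x)) = Ex (star x * x) - star (Ex x) * Ex x := by
    have e1 : star (x - Ex x) * (x - Ex x) = star x * x + (-1 : ℂ) • (star (Ex x) * x) +
        ((-1 : ℂ) • (star x * Ex x) + star (Ex x) * Ex x) := by
      simp only [star_sub, sub_mul, mul_sub, neg_smul, one_smul]
      abel
    have m1 : star x * x ∈ M := mul_mem hsx hx
    have m2 : star (Ex x) * x ∈ M := mul_mem (hle _ hsEx) hx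
    have m3 : star x * Ex x ∈ M := mul_mem hsx (hle _ hEx)
    have m4 : star (Ex x) * Ex x ∈ N := mul_mem hsEx hEx
    have m2' : (-1 : ℂ) • (star (Ex x) * x) ∈ M := M.toStarSubalgebra.smul_mem m2 _
    have m3' : (-1 : ℂ) • (star x * Ex x) ∈ M := M.toStarSubalgebra.smul_mem m3 _
    rw [e1, hE.add _ _ (add_mem m1 m2') (add_mem m3' (hle _ m4)), hE.add _ _ m1 m2',
      hE.add _ _ m3' (hle _ m4), hE.smul _ _ m2, hE.smul _ _ m3, hE.left _ _ hsEx hx,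
      hE.right _ _ hEx hsx, hE.star_eq _ hx, hE.proj _ m4]
    simp only [neg_smul, one_smul]
    abel
  -- `E(x* x) ≤ ‖x‖²`
  have h3 : Ex (star x * x) ≤ algebraMap ℝ (H →L[ℂ] H) (‖x‖ ^ 2) := by
    have m1 : star x * x ∈ M := mul_mem hsx hx
    have m5 : (((‖x‖ ^ 2 : ℝ)) : ℂ) • (1 : H →L[ℂ] H) ∈ N := N.toStarSubalgebra.smul_mem (one_mem N) _
    have e2 : algebraMap ℝ (H →L[ℂ] H) (‖x‖ ^ 2) = ((‖x‖ ^ 2 : ℝ) : ℂ) • (1 : H →L[ℂ] H) := by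
      rw [Algebra.algebraMap_eq_smul_one]
      exact (RCLike.real_smul_eq_coe_smul (K := ℂ) _ _)
    have h4 : 0 ≤ algebraMap ℝ (H →L[ℂ] H) (‖x‖ ^ 2) - star x * x := by
      rw [sub_nonneg]
      have := CStarAlgebra.star_mul_le_algebraMap_norm_sq (A := H →L[ℂ] H) (a := x)
      exact this
    rw [e2] at h4 ⊢
    have h5 := hE.pos _ (sub_mem (hle _ m5) m1) h4
    have e3 : ((‖x‖ ^ 2 : ℝ) : ℂ) • (1 : H →L[ℂ] H) - star x * x =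
        ((‖x‖ ^ 2 : ℝ) : ℂ) • (1 : H →L[ℂ] H) + (-1 : ℂ) • (star x * x) := by
      rw [neg_smul, one_smul, sub_eq_add_neg]
    rw [e3, hE.add _ _ (hle _ m5) (M.toStarSubalgebra.smul_mem m1 _), hE.proj _ m5,
      hE.smul _ _ m1, neg_smul, one_smul, ← sub_eq_add_neg, sub_nonneg] at h5
    exact h5
  have h6 : star (Ex x) * Ex x ≤ algebraMap ℝ (H →L[ℂ] H) (‖x‖ ^ 2) := by
    rw [h2, sub_nonneg] at h1
    exact h1.trans h3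
  have h7 : ‖star (Ex x) * Ex x‖ ≤ ‖x‖ ^ 2 :=
    (CStarAlgebra.norm_le_iff_le_algebraMap _ (by positivity) (star_mul_self_nonneg _)).2 h6
  rw [CStarRing.norm_star_mul_self, ← sq] at h7
  exact (sq_le_sq₀ (norm_nonneg _) (norm_nonneg _)).1 h7

theorem ce_ξ (hle : ∀ x : H →L[ℂ] H, x ∈ N → x ∈ M) (hE : IsCondExp M N Ex)
    (hφ : ∀ x : H →L[ℂ] H, x ∈ M → vst ξ (Ex x) = vst ξ x) {x : H →L[ℂ] H} (hx : x ∈ M) :
    ‖Ex x ξ‖ ≤ ‖x ξ‖ := by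
  have hEx : Ex x ∈ N := hE.mem x hx
  have hsEx : star (Ex x) ∈ N := star_mem hEx
  -- `⟪E x ξ, x ξ⟫ = ‖E x ξ‖²`
  have h1 : ⟪Ex x ξ, x ξ⟫_ℂ = ⟪Ex x ξ, Ex x ξ⟫_ℂ := by
    have e1 : ⟪Ex x ξ, x ξ⟫_ℂ = vst ξ (star (Ex x) * x) := by
      unfold vst
      rw [ContinuousLinearMap.mul_apply, ContinuousLinearMap.star_eq_adjoint,
        ContinuousLinearMap.adjoint_inner_right]
    have e2 : ⟪Ex x ξ, Ex x ξ⟫_ℂ = vst ξ (star (Ex x) * Ex x) := by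
      unfold vst
      rw [ContinuousLinearMap.mul_apply, ContinuousLinearMap.star_eq_adjoint,
        ContinuousLinearMap.adjoint_inner_right]
    rw [e1, e2, ← hφ _ (mul_mem (hle _ hsEx) hx), hE.left _ _ hsEx hx]
  have h2 : ‖Ex x ξ‖ ^ 2 ≤ ‖Ex x ξ‖ * ‖x ξ‖ := by
    have h3 := norm_inner_le_norm (𝕜 := ℂ) (Ex x ξ) (x ξ)
    rw [h1, inner_self_eq_norm_sq_to_K] at h3
    simpa using h3
  by_cases h0 : ‖Ex x ξ‖ = 0
  · rw [h0]; exact norm_nonneg _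
  · have h4 : 0 < ‖Ex x ξ‖ := lt_of_le_of_ne (norm_nonneg _) (Ne.symm h0)
    nlinarith

/-- functional norms over `N` and over `M` -/
theorem f_le (hle : ∀ x : H →L[ℂ] H, x ∈ N → x ∈ M) (hξ : ‖ξ‖ = 1) (hE : IsCondExp M N Ex)
    (hφ : ∀ x : H →L[ℂ] H, x ∈ M → vst ξ (Ex x) = vst ξ x) {a : H →L[ℂ] H} (ha : a ∈ N) (c : ℝ)
    {x : H →L[ℂ] H} (hx : x ∈ M) (hx1 : ‖x‖ ≤ 1) :
    ‖vst ξ (x * a) - (c : ℂ) * vst ξ (a * x)‖ ≤ fnorm N ξ c a := by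
  have hEx : Ex x ∈ N := hE.mem x hx
  have e1 : vst ξ (x * a) = vst ξ (Ex x * a) := by
    rw [← hφ _ (mul_mem hx (hle _ ha)), hE.right _ _ ha hx]
  have e2 : vst ξ (a * x) = vst ξ (a * Ex x) := by
    rw [← hφ _ (mul_mem (hle _ ha) hx), hE.left _ _ ha hx]
  rw [e1, e2]
  refine le_csSup ?_ ⟨Ex x, hEx, (ce_norm hle hE hx).trans hx1, rfl⟩
  refine ⟨‖a‖ + |c| * ‖a‖, ?_⟩
  rintro r ⟨y, hy, hy1, rfl⟩
  have hv : ∀ b : H →L[ℂ] H, ‖vst ξ b‖ ≤ ‖b‖ := by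
    intro b
    unfold vst
    refine (norm_inner_le_norm _ _).trans ?_
    rw [hξ, one_mul]
    refine (b.le_opNorm _).trans ?_
    rw [hξ, mul_one]
  have h1 : ‖y * a‖ ≤ ‖a‖ := (norm_mul_le _ _).trans (mul_le_of_le_one_left (norm_nonneg _) hy1)
  have h2 : ‖a * y‖ ≤ ‖a‖ := (norm_mul_le _ _).trans (mul_le_of_le_one_right (norm_nonneg _) hy1)
  refine (norm_sub_le _ _).trans (add_le_add ((hv _).trans h1) ?_)
  rw [norm_mul, Complex.norm_real, Real.norm_eq_abs]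
  exact mul_le_mul_of_nonneg_left ((hv _).trans h2) (abs_nonneg _)

/-- functional near-eigen sequences are vector near-eigen sequences -/
theorem f_to_v (hAC : S_AC) (hle : ∀ x : H →L[ℂ] H, x ∈ N → x ∈ M) (hξ : ‖ξ‖ = 1)
    (hcyc : IsCyclic M ξ) (hsep : IsSeparating M ξ) (hm : IsModular M ξ U)
    (R : RAct M ξ U J0 ρ) (hE : IsCondExp M N Ex)
    (hφ : ∀ x : H →L[ℂ] H, x ∈ M → vst ξ (Ex x) = vst ξ x) {c : ℝ} (hc : 0 < c)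
    {a : ℕ → H →L[ℂ] H} (ha : ∀ n, a n ∈ N) {L : ℝ} (hL : ∀ n, ‖a n‖ ≤ L)
    (ht : Tendsto (fun n => fnorm N ξ (c ^ 2) (a n)) atTop (𝓝 0)) :
    Tendsto (fun n => ‖a n ξ - (c : ℂ) • ρ (a n) ξ‖) atTop (𝓝 0) := by
  rw [Metric.tendsto_atTop]
  intro ε hε
  obtain ⟨δ, hδ, h⟩ := hAC H M ξ U J0 ρ hξ hcyc hsep hm R c L (ε / 2) hc (by positivity)
  obtain ⟨n0, hn0⟩ := Metric.tendsto_atTop.1 ht δ hδ
  refine ⟨n0, fun n hn => ?_⟩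
  have h1 := hn0 n hn
  rw [Real.dist_eq, sub_zero] at h1 ⊢
  rw [abs_of_nonneg (norm_nonneg _)]
  have h2 := h (a n) (hle _ (ha n)) (hL n) fun x hx hx1 =>
    (f_le hle hξ hE hφ (ha n) (c ^ 2) hx hx1).trans ((le_abs_self _).trans h1.le)
  linarith

/-! ### The evaluation -/

theorem val (hEv : S_Ev) (D : CoreD M N ξ U κ e S W J E A) {X : K →L[ℂ] K} (hX : X ∈ RR M κ A) :
    ∃ x : H →L[ℂ] H, Ev M J X x ∧ ‖x ξ‖ = ‖X (J 1 ξ)‖ ∧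
      ∀ ε : ℝ, 0 < ε → ∃ r0 : ℝ, 0 < r0 ∧ ∀ r : ℝ, 0 < r → r ≤ r0 →
        ‖X (S (-r) (J r ξ)) - S (-r) (J r (x ξ))‖ ≤ ε := by
  obtain ⟨x, h1, h2, h3, -⟩ := hEv H K M N ξ U κ e S W J E A D X hX
  refine ⟨x 0, ?_, h2 0, fun ε hε => ?_⟩
  · have h4 := h1 0
    rwa [sj_conj D.fr] at h4
  · obtain ⟨r0, h5, h6⟩ := h3 ε hε
    refine ⟨r0, h5, fun r hr hr' => ?_⟩
    have h7 := (h6 0 r hr hr').2
    rwa [zero_sub] at h7

theorem val_norm (hEv : S_Ev) (D : CoreD M N ξ U κ e S W J E A) {X : K →L[ℂ] K} (hX : X ∈ RR M κ A)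
    {x : H →L[ℂ] H} (hx : Ev M J X x) : ‖x ξ‖ = ‖X (J 1 ξ)‖ := by
  obtain ⟨y, h1, h2, -⟩ := val hEv D hX
  rw [ev_unique D.fr hx h1, h2]

theorem val_inj (hEv : S_Ev) (hInj : S_Inj) (D : CoreD M N ξ U κ e S W J E A) {X Y : K →L[ℂ] K}
    (hX : X ∈ RR M κ A) (hY : Y ∈ RR M κ A) {x : H →L[ℂ] H} (h1 : Ev M J X x) (h2 : Ev M J Y x) :
    X = Y := by
  have h3 := ev_sub h1 h2
  rw [sub_self] at h3
  have h4 := val_norm hEv D (RR_sub hX hY) h3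
  rw [ContinuousLinearMap.zero_apply, norm_zero] at h4
  have h5 := hInj H K M N ξ U κ e S W J E A D _ (RR_sub hX hY) (norm_eq_zero.1 h4.symm)
  exact sub_eq_zero.1 h5

/-- the evaluation is onto the relative bicentralizer -/
theorem val_surj (hL : S_L) (hEx : S_Ex) (hEv : S_Ev) (D : CoreD M N ξ U κ e S W J E A)
    (R : RAct M ξ U J0 ρ) {x : H →L[ℂ] H} (hx : x ∈ Bic N M ξ) :
    ∃ X : K →L[ℂ] K, X ∈ RR M κ A ∧ Ev M J X x ∧ ‖X‖ ≤ ‖x‖ := by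
  have F := D.fr
  obtain ⟨X, h1, h2, h3⟩ := hEx H K M N ξ U J0 ρ κ e S W J E A D R x hx.1
    (hL H M N ξ U J0 ρ D.std R x hx)
  refine ⟨X, h1, ?_, h2⟩
  obtain ⟨y, h4, -, h5⟩ := val hEv D h1
  have h6 : ‖(y - x) ξ‖ = 0 := by
    refine le_antisymm (le_of_forall_pos_le_add fun ε hε => ?_) (norm_nonneg _)
    obtain ⟨C, hC, h7⟩ := h3 (ε / 4) (by positivity)
    obtain ⟨r0, hr0, h8⟩ := h5 (ε / 4) (by positivity)
    obtain ⟨k, hk⟩ := exists_pow_lt_of_lt_one (show (0 : ℝ) < min r0 (ε / (4 * (C + 1))) by positivity)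
      (show (1 / 2 : ℝ) < 1 by norm_num)
    have hr : (0 : ℝ) < (1 / 2 : ℝ) ^ k := by positivity
    have h9 := h7 k
    have h10 := h8 _ hr (hk.le.trans (min_le_left _ _))
    have h11 : ‖(y - x) ξ‖ = ‖S (-((1 / 2 : ℝ) ^ k)) (J ((1 / 2 : ℝ) ^ k) (y ξ)) -
        S (-((1 / 2 : ℝ) ^ k)) (J ((1 / 2 : ℝ) ^ k) (x ξ))‖ := by
      rw [← map_sub, ← map_sub, S_norm F, J_norm F hr]
      rfl
    have h12 : C * (1 / 2 : ℝ) ^ k ≤ ε / 4 := by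
      have h13 : (1 / 2 : ℝ) ^ k ≤ ε / (4 * (C + 1)) := hk.le.trans (min_le_right _ _)
      calc C * (1 / 2 : ℝ) ^ k ≤ (C + 1) * (ε / (4 * (C + 1))) :=
            mul_le_mul (by linarith) h13 hr.le (by positivity)
        _ = ε / 4 := by field_simp
    rw [h11, zero_add]
    have h14 := norm_sub_le (X (S (-((1 / 2 : ℝ) ^ k)) (J ((1 / 2 : ℝ) ^ k) ξ)) -
      S (-((1 / 2 : ℝ) ^ k)) (J ((1 / 2 : ℝ) ^ k) (x ξ)))
      (X (S (-((1 / 2 : ℝ) ^ k)) (J ((1 / 2 : ℝ) ^ k) ξ)) -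
      S (-((1 / 2 : ℝ) ^ k)) (J ((1 / 2 : ℝ) ^ k) (y ξ)))
    have h15 : X (S (-((1 / 2 : ℝ) ^ k)) (J ((1 / 2 : ℝ) ^ k) ξ)) -
      S (-((1 / 2 : ℝ) ^ k)) (J ((1 / 2 : ℝ) ^ k) (x ξ)) -
      (X (S (-((1 / 2 : ℝ) ^ k)) (J ((1 / 2 : ℝ) ^ k) ξ)) -
      S (-((1 / 2 : ℝ) ^ k)) (J ((1 / 2 : ℝ) ^ k) (y ξ))) =
      S (-((1 / 2 : ℝ) ^ k)) (J ((1 / 2 : ℝ) ^ k) (y ξ)) -
        S (-((1 / 2 : ℝ) ^ k)) (J ((1 / 2 : ℝ) ^ k) (x ξ)) := by abel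
    rw [h15] at h14
    linarith
  have h7 : y - x = 0 := D.std.sep _ (sub_mem h4.1 hx.1) (norm_eq_zero.1 h6)
  rw [← sub_eq_zero.1 h7]
  exact h4

/-- the flow property for functional near-eigen sequences, `λ = c²`, `p = log c / π` -/
theorem flow_prop (hAC : S_AC) (hFl : S_Flow) (D : CoreD M N ξ U κ e S W J E A)
    (R : RAct M ξ U J0 ρ) (hcyc : IsCyclic M ξ) (hE : IsCondExp M N Ex)
    (hφ : ∀ x : H →L[ℂ] H, x ∈ M → vst ξ (Ex x) = vst ξ x)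
    {X : K →L[ℂ] K} (hX : X ∈ RR M κ A) {x y : H →L[ℂ] H} {c p : ℝ} (hc : 0 < c)
    (hp : Real.pi * p = Real.log c) (h1 : Ev M J X x) (h2 : Ev M J (S p * X * S (-p)) y)
    {a : ℕ → H →L[ℂ] H} (ha : ∀ n, a n ∈ N) {L : ℝ} (hL : ∀ n, ‖a n‖ ≤ L)
    (ht : Tendsto (fun n => fnorm N ξ (c ^ 2) (a n)) atTop (𝓝 0)) (v : H) :
    Tendsto (fun n => (x * a n - a n * y) v) atTop (𝓝 0) :=
  hFl H K M N ξ U J0 ρ κ e S W J E A D R X hX x y c p hc hp h1 h2 a ha ⟨L, hL⟩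
    (f_to_v hAC D.std.le D.std.unit hcyc D.std.sep D.std.modular R hE hφ hc ha hL ht) v

end

end Pool.Agent.H75.BC.G
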