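import Pool.Agent.H75.BC.G.Main

/-!
Totality of the vectors `e_t κ(m') S_p J_r ξ` and splitting of boxes (helper75).
-/

set_option autoImplicit false
set_option linter.unusedSectionVars false
set_option linter.deprecated false

open MeasureTheory Filter Topology Complex
open scoped InnerProductSpace ENNReal

namespace Pool.Agent.H75.BC.G

open Pool.Agent.W662.CB Pool.Agent.H75.BC Pool.Agent.H75.BC.FB

noncomputable section

variable {H : Type} [NormedAddCommGroup H] [InnerProductSpace ℂ H] [CompleteSpace H]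
  {K : Type} [NormedAddCommGroup K] [InnerProductSpace ℂ K] [CompleteSpace K]
  {M N : VonNeumannAlgebra H} {ξ : H} {U : ℝ → H →L[ℂ] H} {J0 : H → H}
  {ρ : (H →L[ℂ] H) → (H →L[ℂ] H)} {κ : (H →L[ℂ] H) →⋆ₐ[ℂ] (K →L[ℂ] K)} {e S : ℝ → K →L[ℂ] K}
  {W : K →L[ℂ] K} {J : ℝ → H →L[ℂ] K} {E : ℝ → ℂ → K →L[ℂ] K} {A : VonNeumannAlgebra K}
  {Ex : (H →L[ℂ] H) → (H →L[ℂ] H)}

/-- operators that commute with the characters commute with the boxes -/
theorem comm_bx (F : Frame U κ e S W J E) {T : K →L[ℂ] K} (hT : ∀ t : ℝ, T * e t = e t * T)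
    {r : ℝ} (hr : 0 < r) (p : ℝ) : T * bx S E p r = bx S E p r * T := by
  have h1 : ∀ t : ℝ, (S (-p) * T * S p) * e t = e t * (S (-p) * T * S p) := by
    intro t
    have h2 : S p * e t = Complex.exp (-(2 * Real.pi * I * t * p)) • (e t * S p) := S_e F t p
    have h3 : S (-p) * e t = Complex.exp (-(2 * Real.pi * I * t * ((-p : ℝ) : ℂ))) • (e t * S (-p)) :=
      S_e F t (-p)
    calc (S (-p) * T * S p) * e t = S (-p) * T * (S p * e t) := by simp only [mul_assoc]
      _ = Complex.exp (-(2 * Real.pi * I * t * p)) • (S (-p) * (T * e t) * S p) := by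
          rw [h2, mul_smul_comm]; simp only [mul_assoc]
      _ = Complex.exp (-(2 * Real.pi * I * t * p)) • ((S (-p) * e t) * T * S p) := by
          rw [hT t]; simp only [mul_assoc]
      _ = e t * (S (-p) * T * S p) := by
          rw [h3, smul_mul_assoc, smul_mul_assoc, smul_smul, ← Complex.exp_add]
          have h4 : -(2 * (Real.pi : ℂ) * I * t * p) + -(2 * Real.pi * I * t * ((-p : ℝ) : ℂ)) = 0 := by
            push_cast; ring
          rw [h4, Complex.exp_zero, one_smul]
          simp only [mul_assoc]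
  have h5 := F.E_comm _ h1 r 0 hr
  have h6 := congrArg (fun Z => S p * Z * S (-p)) h5
  have h7 : S p * ((S (-p) * T * S p) * E r 0) * S (-p) =
      (S p * S (-p)) * T * (S p * E r 0 * S (-p)) := by simp only [mul_assoc]
  have h8 : S p * (E r 0 * (S (-p) * T * S p)) * S (-p) =
      (S p * E r 0 * S (-p)) * T * (S p * S (-p)) := by simp only [mul_assoc]
  simp only [h7, h8, S_mul_neg F, one_mul, mul_one] at h6
  exact h6

/-- splitting of a box vector -/
theorem J_split (F : Frame U κ e S W J E) {r : ℝ} (hr : 0 < r) {n : ℕ} (hn : 0 < n) (v : H) :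
    J r v = ∑ k ∈ Finset.range n, ((Real.sqrt (1 / n) : ℝ) : ℂ) •
      S (k * (r / n)) (J (r / n) v) := by
  have hn' : (0 : ℝ) < n := by exact_mod_cast hn
  have h1 : E r 0 (J r v) = J r v := F.E_J r v hr
  have h2 := F.box_sum r n hr hn
  rw [← h1, h2]
  rw [ContinuousLinearMap.sum_apply]
  refine Finset.sum_congr rfl fun k hk => ?_
  have hk' : (k : ℝ) + 1 ≤ n := by exact_mod_cast Finset.mem_range.1 hk
  have h3 := F.box_J (k * (r / n)) (r / n) r v (by positivity) (by positivity) (by
    rw [show (k : ℝ) * (r / n) + r / n = (k + 1) * (r / n) by ring]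
    calc ((k : ℝ) + 1) * (r / n) ≤ n * (r / n) := mul_le_mul_of_nonneg_right hk' (by positivity)
      _ = r := by field_simp)
  rw [h3]
  congr 2
  congr 1
  field_simp

theorem split_norm (F : Frame U κ e S W J E) {T : K →L[ℂ] K} (hT : ∀ t : ℝ, T * e t = e t * T)
    {r : ℝ} (hr : 0 < r) {n : ℕ} (hn : 0 < n) (p : ℝ) (v : H) :
    ‖T (S p (J r v))‖ ^ 2 = (1 / n : ℝ) * ∑ k ∈ Finset.range n,
      ‖T (S (p + k * (r / n)) (J (r / n) v))‖ ^ 2 := by
  have hn' : (0 : ℝ) < n := by exact_mod_cast hn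
  have hrn : 0 < r / n := by positivity
  have h1 : T (S p (J r v)) = ∑ k ∈ Finset.range n, ((Real.sqrt (1 / n) : ℝ) : ℂ) •
      T (S (p + k * (r / n)) (J (r / n) v)) := by
    rw [J_split F hr hn v, map_sum, map_sum]
    refine Finset.sum_congr rfl fun k _ => ?_
    rw [map_smul, map_smul, F.S_add]
    rfl
  have horth : ∀ k l : ℕ, k ≠ l → ⟪T (S (p + k * (r / n)) (J (r / n) v)),
      T (S (p + l * (r / n)) (J (r / n) v))⟫_ℂ = 0 := by
    have key : ∀ k l : ℕ, k < l → ⟪T (S (p + k * (r / n)) (J (r / n) v)),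
        T (S (p + l * (r / n)) (J (r / n) v))⟫_ℂ = 0 := by
      intro k l hkl
      have e1 : ∀ q : ℝ, T (S q (J (r / n) v)) = bx S E q (r / n) (T (S q (J (r / n) v))) := by
        intro q
        have h2 := ap (comm_bx F hT hrn q) (S q (J (r / n) v))
        have h3 : T (bx S E q (r / n) (S q (J (r / n) v))) =
          bx S E q (r / n) (T (S q (J (r / n) v))) := h2
        rw [bx_J F hrn] at h3
        exact h3
      rw [e1 (p + k * (r / n)), e1 (p + l * (r / n))]
      have hsa : star (bx S E (p + k * (r / n)) (r / n)) = bx S E (p + k * (r / n)) (r / n) :=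
        bx_sa F hrn _
      have hkl' : (k : ℝ) + 1 ≤ l := by exact_mod_cast hkl
      have ho := F.box_orth (p + k * (r / n)) (p + l * (r / n)) (r / n) (r / n) hrn hrn (by
        have h5 : ((k : ℝ) + 1) * (r / n) ≤ l * (r / n) := mul_le_mul_of_nonneg_right hkl' hrn.le
        linarith)
      rw [← ContinuousLinearMap.adjoint_inner_right, ← ContinuousLinearMap.star_eq_adjoint, hsa]
      have h6 := ap ho (T (S (p + l * (r / n)) (J (r / n) v)))
      have h7 : bx S E (p + k * (r / n)) (r / n) (bx S E (p + l * (r / n)) (r / n)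
        (T (S (p + l * (r / n)) (J (r / n) v)))) = 0 := h6
      rw [h7, inner_zero_right]
    intro k l hkl
    rcases lt_or_gt_of_ne hkl with h | h
    · exact key k l h
    · rw [← inner_conj_symm, key l k h, map_zero]
  have h2 : ((‖T (S p (J r v))‖ ^ 2 : ℝ) : ℂ) = (((1 / n : ℝ) * ∑ k ∈ Finset.range n,
      ‖T (S (p + k * (r / n)) (J (r / n) v))‖ ^ 2 : ℝ) : ℂ) := by
    have h3 : ((‖T (S p (J r v))‖ ^ 2 : ℝ) : ℂ) = ⟪T (S p (J r v)), T (S p (J r v))⟫_ℂ := by
      rw [inner_self_eq_norm_sq_to_K]; push_cast; rfl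
    rw [h3, h1, sum_inner]
    push_cast
    rw [Finset.mul_sum]
    refine Finset.sum_congr rfl fun k hk => ?_
    rw [inner_sum, Finset.sum_eq_single_of_mem k hk]
    · rw [inner_smul_left, inner_smul_right, inner_self_eq_norm_sq_to_K, Complex.conj_ofReal,
        ← mul_assoc, ← Complex.ofReal_mul, Real.mul_self_sqrt (by positivity)]
      push_cast
      rfl
    · intro l _ hl
      rw [inner_smul_left, inner_smul_right, horth k l (Ne.symm hl), mul_zero, mul_zero]
  exact_mod_cast h2

/-- an operator that commutes with the characters and is small on small boxes is zero -/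
theorem zero_of_small (F : Frame U κ e S W J E) {T : K →L[ℂ] K} (hT : ∀ t : ℝ, T * e t = e t * T)
    (v : H) (h : ∀ ε : ℝ, 0 < ε → ∃ r0 : ℝ, 0 < r0 ∧ ∀ p r : ℝ, 0 < r → r ≤ r0 →
      ‖T (S p (J r v))‖ ≤ ε) {r : ℝ} (hr : 0 < r) (p : ℝ) : T (S p (J r v)) = 0 := by
  have h1 : ‖T (S p (J r v))‖ = 0 := by
    refine le_antisymm (le_of_forall_pos_le_add fun ε hε => ?_) (norm_nonneg _)
    obtain ⟨r0, hr0, h2⟩ := h ε hε
    obtain ⟨n, hn⟩ := exists_nat_gt (r / r0)
    have hn0 : 0 < n := by
      rcases Nat.eq_zero_or_pos n with h0 | h0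
      · rw [h0] at hn
        have : 0 < r / r0 := by positivity
        norm_num at hn
        linarith
      · exact h0
    have hn' : (0 : ℝ) < n := by exact_mod_cast hn0
    have hrn : 0 < r / n := by positivity
    have hle : r / n ≤ r0 := by
      rw [div_le_iff₀ hn']
      rw [div_lt_iff₀ hr0] at hn
      linarith
    have h3 := split_norm F hT hr hn0 p v
    have h4 : ∑ k ∈ Finset.range n, ‖T (S (p + k * (r / n)) (J (r / n) v))‖ ^ 2 ≤
        ∑ _k ∈ Finset.range n, ε ^ 2 :=
      Finset.sum_le_sum fun k _ => pow_le_pow_left₀ (norm_nonneg _) (h2 _ _ hrn hle) 2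
    rw [Finset.sum_const, Finset.card_range, nsmul_eq_mul] at h4
    have h5 : ‖T (S p (J r v))‖ ^ 2 ≤ ε ^ 2 := by
      rw [h3]
      calc (1 / n : ℝ) * ∑ k ∈ Finset.range n, ‖T (S (p + k * (r / n)) (J (r / n) v))‖ ^ 2 ≤
            (1 / n : ℝ) * (n * ε ^ 2) := mul_le_mul_of_nonneg_left h4 (by positivity)
        _ = ε ^ 2 := by field_simp
    rw [zero_add]
    exact (sq_le_sq₀ (norm_nonneg _) hε.le).1 h5
  exact norm_eq_zero.1 h1

/-- an operator that commutes with the characters and vanishes on the box vectors is zero -/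
theorem zero_of_boxes (F : Frame U κ e S W J E) {T : K →L[ℂ] K} (hT : ∀ t : ℝ, T * e t = e t * T)
    (h : ∀ (p r : ℝ) (v : H), 0 < r → T (S p (J r v)) = 0) : T = 0 := by
  have h1 : ∀ (R : ℝ) (u : K), 0 < R → T (bx S E (-R) (2 * R) u) = 0 := by
    intro R u hR
    have h2R : (0 : ℝ) < 2 * R := by positivity
    have h2 := F.fourier (2 * R) h2R (S R u)
    have h3 := (h2.mapL (T * S (-R)))
    have h4 : ∀ m : ℤ, (T * S (-R)) (e ((m : ℝ) / (2 * R)) (J (2 * R)
        (ContinuousLinearMap.adjoint (J (2 * R)) (e (-((m : ℝ) / (2 * R))) (S R u))))) = 0 := by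
      intro m
      set w := ContinuousLinearMap.adjoint (J (2 * R)) (e (-((m : ℝ) / (2 * R))) (S R u))
      have h5 : S (-R) * e ((m : ℝ) / (2 * R)) = _ := S_e F ((m : ℝ) / (2 * R)) (-R)
      have h6 := ap h5 (J (2 * R) w)
      have h7 : S (-R) (e ((m : ℝ) / (2 * R)) (J (2 * R) w)) =
        Complex.exp (-(2 * Real.pi * I * (((m : ℝ) / (2 * R) : ℝ) : ℂ) * ((-R : ℝ) : ℂ))) •
          e ((m : ℝ) / (2 * R)) (S (-R) (J (2 * R) w)) := h6
      show T (S (-R) (e ((m : ℝ) / (2 * R)) (J (2 * R) w))) = 0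
      rw [h7, map_smul]
      have h8 := ap (hT ((m : ℝ) / (2 * R))) (S (-R) (J (2 * R) w))
      have h9 : T (e ((m : ℝ) / (2 * R)) (S (-R) (J (2 * R) w))) =
        e ((m : ℝ) / (2 * R)) (T (S (-R) (J (2 * R) w))) := h8
      rw [h9, h _ _ _ h2R, map_zero, smul_zero]
    have h5 := h3.unique (by simpa only [h4] using hasSum_zero)
    have h6 : (T * S (-R)) (E (2 * R) 0 (S R u)) = T (bx S E (-R) (2 * R) u) := by
      unfold bx
      rw [neg_neg]
      rfl
    rw [← h6]
    exact h5
  ext u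
  have h2 := F.exhaust u
  have h3 : Tendsto (fun R : ℝ => T (bx S E (-R) (2 * R) u)) atTop (𝓝 (T u)) :=
    (T.continuous.tendsto u).comp h2
  have h4 : Tendsto (fun R : ℝ => T (bx S E (-R) (2 * R) u)) atTop (𝓝 0) := by
    refine tendsto_const_nhds.congr' ?_
    filter_upwards [eventually_gt_atTop 0] with R hR
    exact (h1 R u hR).symm
  exact tendsto_nhds_unique h3 h4

/-- the span of the vectors `e_t S_p J_r v` is dense -/
theorem span_dense (F : Frame U κ e S W J E) :
    Dense ((Submodule.span ℂ {w : K | ∃ (t p r : ℝ) (v : H), 0 < r ∧ w = e t (S p (J r v))} :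
      Submodule ℂ K) : Set K) := by
  set V : Submodule ℂ K := Submodule.span ℂ {w : K | ∃ (t p r : ℝ) (v : H), 0 < r ∧
    w = e t (S p (J r v))} with hV
  let C : Submodule ℂ K := V.topologicalClosure
  have hCc : IsClosed (C : Set K) := V.isClosed_topologicalClosure
  have : CompleteSpace C := hCc.completeSpace_coe
  have hVC : V ≤ C := V.le_topologicalClosure
  have hinv : ∀ t : ℝ, ∀ w ∈ C, e t w ∈ C := by
    intro t w hw
    have hw' : w ∈ closure (V : Set K) := hw
    refine map_mem_closure (e t).continuous hw' ?_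
    intro x hx
    have hx' : x ∈ V := hx
    refine Submodule.span_induction (p := fun x _ => e t x ∈ V) ?_ ?_ ?_ ?_ hx'
    · rintro _ ⟨s, p, r, v, hr, rfl⟩
      refine Submodule.subset_span ⟨t + s, p, r, v, hr, ?_⟩
      rw [F.e_add]
      rfl
    · rw [map_zero]; exact V.zero_mem
    · intro a b _ _ ha hb
      rw [map_add]
      exact V.add_mem ha hb
    · intro c a _ ha
      rw [map_smul]
      exact V.smul_mem c ha
  have hT : ∀ t : ℝ, (1 - C.starProjection) * e t = e t * (1 - C.starProjection) := by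
    intro t
    ext w
    show e t w - C.starProjection (e t w) = e t (w - C.starProjection w)
    have h1 : C.starProjection (e t w) = e t (C.starProjection w) := by
      refine Submodule.eq_starProjection_of_mem_of_inner_eq_zero
        (hinv t _ (C.starProjection_apply_mem w)) fun z hz => ?_
      have h2 : e (-t) z ∈ C := hinv _ _ hz
      have h3 : ⟪w - C.starProjection w, e (-t) z⟫_ℂ = 0 := C.starProjection_inner_eq_zero w _ h2
      rw [← F.e_star, ContinuousLinearMap.star_eq_adjoint, ContinuousLinearMap.adjoint_inner_right,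
        map_sub] at h3
      exact h3
    rw [h1, map_sub]
  have h0 : (1 - C.starProjection) = (0 : K →L[ℂ] K) := by
    refine zero_of_boxes F hT fun p r v hr => ?_
    have h1 : S p (J r v) ∈ C := by
      refine hVC (Submodule.subset_span ⟨0, p, r, v, hr, ?_⟩)
      rw [F.e_zero]
      rfl
    show S p (J r v) - C.starProjection (S p (J r v)) = 0
    rw [Submodule.starProjection_eq_self_iff.2 h1, sub_self]
  intro v
  have h1 : C.starProjection v = v := by
    have h2 := congrArg (fun T : K →L[ℂ] K => T v) h0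
    have h3 : v - C.starProjection v = 0 := h2
    exact (sub_eq_zero.1 h3).symm
  have h4 : v ∈ C := Submodule.starProjection_eq_self_iff.1 h1
  exact h4

/-- strong convergence can be tested on the vectors `e_t κ(m') S_p J_r ξ` -/
theorem tend_tot (F : Frame U κ e S W J E) (hsep : IsSeparating M ξ) {ι : Type} {l : Filter ι}
    (T : ι → K →L[ℂ] K) (C : ℝ) (hC : ∀ i, ‖T i‖ ≤ C)
    (h : ∀ (t p r : ℝ) (m : H →L[ℂ] H), 0 < r → m ∈ M.commutant →
      Tendsto (fun i => T i (e t (S p (J r (m ξ))))) l (𝓝 0)) (w : K) :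
    Tendsto (fun i => T i w) l (𝓝 0) := by
  rcases isEmpty_or_nonempty ι with hι | ⟨⟨i0⟩⟩
  · rw [show l = ⊥ from Subsingleton.elim _ _]
    exact tendsto_bot
  have hC0 : 0 ≤ C := (norm_nonneg _).trans (hC i0)
  -- a closed subspace of good vectors
  have hadd : ∀ w : K, (∀ ε : ℝ, 0 < ε → ∃ w' : K, ‖w - w'‖ ≤ ε ∧
      Tendsto (fun i => T i w') l (𝓝 0)) → Tendsto (fun i => T i w) l (𝓝 0) := by
    intro w hw
    rw [Metric.tendsto_nhds]
    intro ε hε
    obtain ⟨w', h1, h2⟩ := hw (ε / (2 * (C + 1))) (by positivity)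
    have h3 := Metric.tendsto_nhds.1 h2 (ε / 2) (by positivity)
    filter_upwards [h3] with i hi
    rw [dist_zero_right] at hi ⊢
    have e1 : T i w = T i (w - w') + T i w' := by rw [map_sub]; abel
    have h4 : ‖T i (w - w')‖ ≤ (C + 1) * (ε / (2 * (C + 1))) :=
      ((T i).le_opNorm _).trans (mul_le_mul ((hC i).trans (by linarith)) h1 (norm_nonneg _)
        (by linarith))
    have h5 : (C + 1) * (ε / (2 * (C + 1))) = ε / 2 := by field_simp
    rw [e1]
    refine (norm_add_le _ _).trans_lt ?_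
    linarith
  have hgen : ∀ (t p r : ℝ) (v : H), 0 < r → Tendsto (fun i => T i (e t (S p (J r v)))) l (𝓝 0) := by
    intro t p r v hr
    refine hadd _ fun ε hε => ?_
    obtain ⟨w, hw, hw1⟩ := Metric.mem_closure_iff.1 (Flow.comm_cyc hsep v) ε hε
    obtain ⟨m, hm, rfl⟩ := hw
    refine ⟨e t (S p (J r (m ξ))), ?_, h t p r m hr hm⟩
    rw [← map_sub, ← map_sub, ← map_sub, e_norm F, S_norm F, J_norm F hr, ← dist_eq_norm]
    exact hw1.le
  refine hadd w fun ε hε => ?_
  obtain ⟨w', hw', hw1⟩ := Metric.mem_closure_iff.1 (span_dense F w) ε hε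
  refine ⟨w', by rw [← dist_eq_norm]; exact hw1.le, ?_⟩
  have hw2 : w' ∈ Submodule.span ℂ {w : K | ∃ (t p r : ℝ) (v : H), 0 < r ∧
    w = e t (S p (J r v))} := hw'
  refine Submodule.span_induction (p := fun x _ => Tendsto (fun i => T i x) l (𝓝 0)) ?_ ?_ ?_ ?_ hw2
  · rintro _ ⟨t, p, r, v, hr, rfl⟩
    exact hgen t p r v hr
  · simp only [map_zero]; exact tendsto_const_nhds
  · intro a b _ _ ha hb
    simpa only [map_add, add_zero] using ha.add hb
  · intro c a _ ha
    simpa only [map_smul, smul_zero] using ha.const_smul c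

end

end Pool.Agent.H75.BC.G
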